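import Pool.Agent.V7H25.Sing.Pd

set_option autoImplicit false
set_option linter.unusedSectionVars false

open scoped Matrix

/-! Levels in a totally ordered set with a group action. -/

namespace Pool.Agent.V7H25.Sing

open Pool.Agent.W649.ZL Pool.Agent.N309.LO Pool.Agent.N309.PD Module

universe u v w z y

section alg
variable {G : Type u} [Group G] {X : Type y} [MulAction G X] {J : Type v} [Fintype J]
  [DecidableEq J] {L : Type w} [Fintype L] [DecidableEq L] {M : Type z} [Fintype M] [DecidableEq M]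

/-- the chains all whose terms have a level satisfying `p` -/
noncomputable def cx {J : Type v} (w : J → X) (p : X → Prop) :
    Submodule ℂ (J → MonoidAlgebra ℂ G) where
  carrier := {x | ∀ j k, (x j).coeff k ≠ 0 → p (k • w j)}
  add_mem' := by
    intro x y hx hy j k h
    by_contra hp
    have h1 : (x j).coeff k = 0 := by
      by_contra h'
      exact hp (hx j k h')
    have h2 : (y j).coeff k = 0 := by
      by_contra h'
      exact hp (hy j k h')
    apply h
    change (x j).coeff k + (y j).coeff k = 0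
    rw [h1, h2, add_zero]
  zero_mem' := by
    intro j k h
    exact absurd rfl h
  smul_mem' := by
    intro c x hx j k h
    apply hx
    intro h1
    apply h
    change c • (x j).coeff k = 0
    rw [h1, smul_zero]

theorem cx_mono (w : J → X) {p q : X → Prop} (h : ∀ g, p g → q g) :
    (cx w p : Submodule ℂ (J → MonoidAlgebra ℂ G)) ≤ cx w q :=
  fun _ hx j k hk => h _ (hx j k hk)

theorem cx_vecMul {w1 : L → X} {w0 : J → X} {D : Matrix L J (MonoidAlgebra ℂ G)}
    {p p' : X → Prop} (R : X → X → Prop) (hD : ∀ l j t, (D l j).coeff t ≠ 0 → R (w1 l) (t • w0 j))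
    (hp : ∀ (a : G) (y z : X), p (a • y) → R y z → p' (a • z))
    (x : L → MonoidAlgebra ℂ G) (hx : x ∈ cx w1 p) : x ᵥ* D ∈ cx w0 p' := by
  intro j t h
  have e : (x ᵥ* D) j = ∑ l, x l * D l j := rfl
  rw [e, MonoidAlgebra.coeff_sum, Finsupp.finsetSum_apply] at h
  obtain ⟨l, _, hl⟩ := Finset.exists_ne_zero_of_sum_ne_zero h
  obtain ⟨a, b, hab, ha, hb⟩ := coeff_mul_ne _ _ _ hl
  rw [← hab, mul_smul]
  exact hp a _ _ (hx l a ha) (hD l j b hb)

open Classical in
/-- the part of level `x` -/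
noncomputable def tx (w : J → X) (x : X) :
    (J → MonoidAlgebra ℂ G) →ₗ[ℂ] (J → MonoidAlgebra ℂ G) where
  toFun z := fun j => MonoidAlgebra.ofCoeff ((z j).coeff.filter (fun t => x = t • w j))
  map_add' z z' := by
    funext j
    apply MonoidAlgebra.coeff_injective
    exact Finsupp.filter_add
  map_smul' c z := by
    funext j
    apply MonoidAlgebra.coeff_injective
    exact Finsupp.filter_smul

theorem tx_pos (w : J → X) (x : X) (z : J → MonoidAlgebra ℂ G) (j : J) (t : G)
    (h : x = t • w j) : (tx w x z j).coeff t = (z j).coeff t := by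
  classical
  change ((z j).coeff.filter (fun t => x = t • w j)) t = _
  exact Finsupp.filter_apply_pos _ _ h

theorem tx_neg (w : J → X) (x : X) (z : J → MonoidAlgebra ℂ G) (j : J) (t : G)
    (h : x ≠ t • w j) : (tx w x z j).coeff t = 0 := by
  classical
  change ((z j).coeff.filter (fun t => x = t • w j)) t = _
  exact Finsupp.filter_apply_neg _ _ h

theorem tx_mem (w : J → X) (x : X) (z : J → MonoidAlgebra ℂ G) : tx w x z ∈ cx w (fun y => x = y) := by
  intro j t h
  by_contra hne
  exact h (tx_neg w x z j t hne)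

theorem tx_eq_self (w : J → X) (x : X) (z : J → MonoidAlgebra ℂ G)
    (hz : z ∈ cx w (fun y => x = y)) : tx w x z = z := by
  funext j
  apply MonoidAlgebra.coeff_injective
  ext t
  by_cases h : x = t • w j
  · exact tx_pos w x z j t h
  · rw [tx_neg w x z j t h]
    by_contra hne
    exact h (hz j t (Ne.symm hne))

end alg

section ord
variable {G : Type u} [Group G] {X : Type y} [MulAction G X] [LinearOrder X] {J : Type v}
  [Fintype J] [DecidableEq J] {L : Type w} [Fintype L] [DecidableEq L] {M : Type z} [Fintype M]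
  [DecidableEq M]

theorem tx_eq_zero (w : J → X) (x : X) (z : J → MonoidAlgebra ℂ G)
    (hz : z ∈ cx w (fun y => x < y)) : tx w x z = 0 := by
  funext j
  apply MonoidAlgebra.coeff_injective
  ext t
  change (tx w x z j).coeff t = 0
  by_cases h : x = t • w j
  · rw [tx_pos w x z j t h]
    by_contra hne
    exact (hz j t hne).ne h
  · exact tx_neg w x z j t h

/-- removing the part of level `x` -/
theorem sub_tx_mem (w : J → X) (x : X) (z : J → MonoidAlgebra ℂ G)
    (hz : z ∈ cx w (fun y => x ≤ y)) : z - tx w x z ∈ cx w (fun y => x < y) := by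
  intro j t h
  have e : ((z - tx w x z) j).coeff t = (z j).coeff t - (tx w x z j).coeff t := rfl
  rw [e] at h
  by_cases hx : x = t • w j
  · rw [tx_pos w x z j t hx, sub_self] at h
    exact absurd rfl h
  · rw [tx_neg w x z j t hx, sub_zero] at h
    exact lt_of_le_of_ne (hz j t h) hx

theorem mem_lt_of_tx (w : J → X) (x : X) (z : J → MonoidAlgebra ℂ G)
    (hz : z ∈ cx w (fun y => x ≤ y)) (h : tx w x z = 0) : z ∈ cx w (fun y => x < y) := by
  have := sub_tx_mem w x z hz
  rwa [h, sub_zero] at this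

theorem eq_le (w : J → X) (x : X) :
    (cx w (fun y => x = y) : Submodule ℂ (J → MonoidAlgebra ℂ G)) ≤ cx w (fun y => x ≤ y) :=
  cx_mono w fun _ h => h.le

theorem lt_le (w : J → X) (x : X) :
    (cx w (fun y => x < y) : Submodule ℂ (J → MonoidAlgebra ℂ G)) ≤ cx w (fun y => x ≤ y) :=
  cx_mono w fun _ h => h.le

/-- boundaries have no terms of lower level -/
def Lx (w1 : L → X) (w0 : J → X) (D : Matrix L J (MonoidAlgebra ℂ G)) : Prop :=
  ∀ l j t, (D l j).coeff t ≠ 0 → w1 l ≤ t • w0 j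

theorem levM_row (w1 : L → X) (w0 : J → X) (D : Matrix L J (MonoidAlgebra ℂ G)) (l : L) :
    levM w1 w0 D l = tx w0 (w1 l) (D l) := by
  funext j
  apply MonoidAlgebra.coeff_injective
  ext t
  change (levM w1 w0 D l j).coeff t = (tx w0 (w1 l) (D l) j).coeff t
  by_cases h : w1 l = t • w0 j
  · rw [levM_coeff_pos _ _ _ _ _ _ h, tx_pos _ _ _ _ _ h]
  · rw [levM_coeff_neg _ _ _ _ _ _ h, tx_neg _ _ _ _ _ h]

theorem vecMul_le (hX : OrdInv G X) {w1 : L → X} {w0 : J → X} {D : Matrix L J (MonoidAlgebra ℂ G)}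
    (hD : Lx w1 w0 D) (x : X) (z : L → MonoidAlgebra ℂ G) (hz : z ∈ cx w1 (fun y => x ≤ y)) :
    z ᵥ* D ∈ cx w0 (fun y => x ≤ y) :=
  cx_vecMul (fun a b => a ≤ b) hD (fun a _ _ h1 h2 => le_trans h1 (hX a _ _ h2)) z hz

theorem vecMul_lt (hX : OrdInv G X) {w1 : L → X} {w0 : J → X} {D : Matrix L J (MonoidAlgebra ℂ G)}
    (hD : Lx w1 w0 D) (x : X) (z : L → MonoidAlgebra ℂ G) (hz : z ∈ cx w1 (fun y => x < y)) :
    z ᵥ* D ∈ cx w0 (fun y => x < y) :=
  cx_vecMul (fun a b => a ≤ b) hD (fun a _ _ h1 h2 => lt_of_lt_of_le h1 (hX a _ _ h2)) z hz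

/-- the part of level `x` of a boundary -/
theorem tx_vecMul (hX : OrdInv G X) {w1 : L → X} {w0 : J → X}
    {D : Matrix L J (MonoidAlgebra ℂ G)} (hD : Lx w1 w0 D) (x : X) (z : L → MonoidAlgebra ℂ G)
    (hz : z ∈ cx w1 (fun y => x ≤ y)) :
    tx w0 x (z ᵥ* D) = tx w1 x z ᵥ* levM w1 w0 D := by
  have h1 : tx w1 x z ᵥ* levM w1 w0 D ∈ cx w0 (fun y => x = y) := by
    refine cx_vecMul (p' := fun y => x = y) (fun a b => a = b) ?_ ?_ _ (tx_mem w1 x z)
    · intro l j t h
      by_contra hne
      exact h (levM_coeff_neg _ _ _ _ _ _ hne)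
    · intro a y y' h1 h2
      rw [h1, h2]
  have h2 : tx w1 x z ᵥ* (D - levM w1 w0 D) ∈ cx w0 (fun y => x < y) := by
    refine cx_vecMul (p' := fun y => x < y) (fun a b => a < b) ?_ ?_ _ (tx_mem w1 x z)
    · intro l j t h
      have e : ((D - levM w1 w0 D) l j).coeff t = (D l j).coeff t - (levM w1 w0 D l j).coeff t := rfl
      rw [e] at h
      by_cases hx : w1 l = t • w0 j
      · rw [levM_coeff_pos _ _ _ _ _ _ hx, sub_self] at h
        exact absurd rfl h
      · rw [levM_coeff_neg _ _ _ _ _ _ hx, sub_zero] at h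
        exact lt_of_le_of_ne (hD l j t h) hx
    · intro a y y' h1 h2
      rw [h1]
      exact hX.lt a h2
  have h3 : (z - tx w1 x z) ᵥ* D ∈ cx w0 (fun y => x < y) :=
    vecMul_lt hX hD x _ (sub_tx_mem w1 x z hz)
  have e : z ᵥ* D = tx w1 x z ᵥ* levM w1 w0 D
      + (tx w1 x z ᵥ* (D - levM w1 w0 D) + (z - tx w1 x z) ᵥ* D) := by
    rw [Matrix.vecMul_sub, Matrix.sub_vecMul]
    abel
  rw [e, map_add, tx_eq_self _ _ _ h1, tx_eq_zero _ _ _ (Submodule.add_mem _ h2 h3), add_zero]

/-- the level parts form a complex -/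
theorem levM_mul_zero (hX : OrdInv G X) {w2 : M → X} {w1 : L → X} {w0 : J → X}
    {D : Matrix L J (MonoidAlgebra ℂ G)} {D' : Matrix M L (MonoidAlgebra ℂ G)}
    (hD : Lx w1 w0 D) (hD' : Lx w2 w1 D') (h : D' * D = 0) :
    levM w2 w1 D' * levM w1 w0 D = 0 := by
  funext m
  change levM w2 w1 D' m ᵥ* levM w1 w0 D = 0
  rw [levM_row, ← tx_vecMul hX hD]
  · have e : D' m ᵥ* D = 0 := rows_zero _ _ h m
    rw [e, map_zero]
  · intro l t ht
    exact hD' m l t ht

end ord

end Pool.Agent.V7H25.Sing
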