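import Pool.Agent.V7H25.Sing.Act

set_option autoImplicit false
set_option linter.unusedSectionVars false

open scoped Matrix

/-! Vanishing of `L²`-Betti numbers for actions on totally ordered sets. -/

namespace Pool.Agent.V7H25.Sing

open Pool.Agent.W649.ZL Pool.Agent.N309.LO Pool.Agent.N309.PD Module

universe u v w z y

section
variable {G : Type u} [Group G] {X : Type y} [MulAction G X] [LinearOrder X]

/-- the inclusions of the open cones in the closed cones are homology isomorphisms up to degree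
`k` -/
structure Match {q : ℕ → ℕ}
    (E : ∀ i, Matrix (Fin (q (i + 1))) (Fin (q i)) (MonoidAlgebra ℂ G)) (w : ∀ i, Fin (q i) → X)
    (k : ℕ) : Prop where
  inj : ∀ (x : X) (i : ℕ), i ≤ k → ∀ y ∈ cx (w (i + 1)) (fun a => x ≤ a),
    y ᵥ* E i ∈ cx (w i) (fun a => x < a) →
      ∃ y' ∈ cx (w (i + 1)) (fun a => x < a), y' ᵥ* E i = y ᵥ* E i
  surj : ∀ (x : X) (i : ℕ), i ≤ k → ∀ y : Fin (q (i + 1)) → MonoidAlgebra ℂ G,
    y ᵥ* E i ∈ cx (w i) (fun a => x ≤ a) →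
      ∃ y' ∈ cx (w (i + 1)) (fun a => x ≤ a), y ᵥ* E i - y' ᵥ* E i ∈ cx (w i) (fun a => x < a)
  neg : ∀ (x : X) (z : Fin (q 0) → MonoidAlgebra ℂ G), ∃ c ∈ cx (w 0) (fun a => x < a),
    ∃ y, y ᵥ* E 0 = z - c

/-- level-preserving matrices -/
def Pres {J : Type v} {L : Type w} (w1 : L → X) (w0 : J → X)
    (D : Matrix L J (MonoidAlgebra ℂ G)) : Prop :=
  ∀ l j t, (D l j).coeff t ≠ 0 → w1 l = t • w0 j

theorem pres_levM {J : Type v} [Fintype J] [DecidableEq J] {L : Type w} [Fintype L]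
    [DecidableEq L] (w1 : L → X) (w0 : J → X) (D : Matrix L J (MonoidAlgebra ℂ G)) :
    Pres w1 w0 (levM w1 w0 D) := by
  intro l j t h
  by_contra hne
  exact h (levM_coeff_neg _ _ _ _ _ _ hne)

theorem pres_row {J : Type v} {L : Type w} {w1 : L → X} {w0 : J → X}
    {D : Matrix L J (MonoidAlgebra ℂ G)} (h : Pres w1 w0 D) (l : L) :
    D l ∈ cx w0 (fun a => w1 l = a) := fun j t ht => h l j t ht

theorem vecMul_eq {J : Type v} [Fintype J] [DecidableEq J] {L : Type w} [Fintype L]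
    [DecidableEq L] {w1 : L → X} {w0 : J → X} {D : Matrix L J (MonoidAlgebra ℂ G)}
    (hD : Pres w1 w0 D) (x : X) (z : L → MonoidAlgebra ℂ G) (hz : z ∈ cx w1 (fun y => x = y)) :
    z ᵥ* D ∈ cx w0 (fun y => x = y) :=
  cx_vecMul (p' := fun y => x = y) (fun a b => a = b) hD
    (fun a _ _ h1 h2 => by rw [h1, h2]) z hz

theorem one_mem {J : Type v} [Fintype J] [DecidableEq J] (w0 : J → X) (j : J) :
    (1 : Matrix J J (MonoidAlgebra ℂ G)) j ∈ cx w0 (fun a => w0 j = a) := by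
  intro i t ht
  by_cases h : j = i
  · subst h
    rw [Matrix.one_apply_eq, MonoidAlgebra.one_def, MonoidAlgebra.coeff_single] at ht
    by_cases h1 : (1 : G) = t
    · rw [← h1, one_smul]
    · rw [Finsupp.single_eq_of_ne (Ne.symm h1)] at ht
      exact absurd rfl ht
  · rw [Matrix.one_apply_ne h] at ht
    exact absurd rfl ht

variable {q : ℕ → ℕ} {E : ∀ i, Matrix (Fin (q (i + 1))) (Fin (q i)) (MonoidAlgebra ℂ G)}
  {w : ∀ i, Fin (q i) → X} {k : ℕ}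

theorem gr_exact_zero (hX : OrdInv G X) (hw : ∀ i, Lx (w (i + 1)) (w i) (E i))
    (hM : Match E w k) (x : X) (z : Fin (q 0) → MonoidAlgebra ℂ G)
    (hz : z ∈ cx (w 0) (fun a => x = a)) :
    ∃ y ∈ cx (w 1) (fun a => x = a), y ᵥ* levM (w 1) (w 0) (E 0) = z := by
  obtain ⟨c, hc, y0, hy0⟩ := hM.neg x z
  have h1 : y0 ᵥ* E 0 ∈ cx (w 0) (fun a => x ≤ a) := by
    rw [hy0]
    exact Submodule.sub_mem _ (eq_le _ _ hz) (lt_le _ _ hc)
  obtain ⟨y', hy', hy2⟩ := hM.surj x 0 (Nat.zero_le _) y0 h1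
  refine ⟨tx (w 1) x y', tx_mem _ _ _, ?_⟩
  rw [← tx_vecMul hX (hw 0) x y' hy']
  have h2 := tx_eq_zero _ _ _ hy2
  rw [map_sub, sub_eq_zero, hy0, map_sub, tx_eq_self _ _ _ hz, tx_eq_zero _ _ _ hc, sub_zero] at h2
  exact h2.symm

theorem gr_exact_succ (hX : OrdInv G X) (hw : ∀ i, Lx (w (i + 1)) (w i) (E i))
    (hM : Match E w k) (hex : ∀ i, i ≤ k → ∀ x, x ᵥ* E i = 0 → ∃ y, y ᵥ* E (i + 1) = x)
    (x : X) (i : ℕ) (hi : i + 1 ≤ k) (z : Fin (q (i + 1)) → MonoidAlgebra ℂ G)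
    (hz : z ∈ cx (w (i + 1)) (fun a => x = a)) (hz0 : z ᵥ* levM (w (i + 1)) (w i) (E i) = 0) :
    ∃ y ∈ cx (w (i + 2)) (fun a => x = a), y ᵥ* levM (w (i + 2)) (w (i + 1)) (E (i + 1)) = z := by
  have hz' := eq_le _ _ hz
  have h1 : z ᵥ* E i ∈ cx (w i) (fun a => x < a) := by
    apply mem_lt_of_tx _ _ _ (vecMul_le hX (hw i) x z hz')
    rw [tx_vecMul hX (hw i) x z hz', tx_eq_self _ _ _ hz, hz0]
  obtain ⟨c, hc, hc2⟩ := hM.inj x i (by omega) z hz' h1
  have h2 : (z - c) ᵥ* E i = 0 := by rw [Matrix.sub_vecMul, hc2, sub_self]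
  obtain ⟨y0, hy0⟩ := hex i (by omega) _ h2
  have h3 : y0 ᵥ* E (i + 1) ∈ cx (w (i + 1)) (fun a => x ≤ a) := by
    rw [hy0]
    exact Submodule.sub_mem _ hz' (lt_le _ _ hc)
  obtain ⟨y', hy', hy2⟩ := hM.surj x (i + 1) hi y0 h3
  refine ⟨tx (w (i + 2)) x y', tx_mem _ _ _, ?_⟩
  rw [← tx_vecMul hX (hw (i + 1)) x y' hy']
  have h4 := tx_eq_zero _ _ _ hy2
  rw [map_sub, sub_eq_zero, hy0, map_sub, tx_eq_self _ _ _ hz, tx_eq_zero _ _ _ hc, sub_zero] at h4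
  exact h4.symm

theorem exists_s_zero (hX : OrdInv G X) (hw : ∀ i, Lx (w (i + 1)) (w i) (E i))
    (hM : Match E w k) : ∃ s : Matrix (Fin (q 0)) (Fin (q 1)) (MonoidAlgebra ℂ G),
      Pres (w 0) (w 1) s ∧ s * levM (w 1) (w 0) (E 0) = 1 := by
  have h := fun j => gr_exact_zero hX hw hM (w 0 j) _ (one_mem (w 0) j)
  choose s hs1 hs2 using h
  exact ⟨s, fun j l t ht => hs1 j l t ht, funext hs2⟩

/-- the projection -/
noncomputable def prj {I : Type v} {J : Type w} [Fintype J] [DecidableEq I]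
    (A : Matrix I J (MonoidAlgebra ℂ G)) (s : Matrix J I (MonoidAlgebra ℂ G)) :
    Matrix I I (MonoidAlgebra ℂ G) := 1 - A * s

theorem proj_rows {i : ℕ} (Ei : Matrix (Fin (q (i + 1))) (Fin (q i)) (MonoidAlgebra ℂ G))
    (hE : Pres (w (i + 1)) (w i) Ei)
    (s : Matrix (Fin (q i)) (Fin (q (i + 1))) (MonoidAlgebra ℂ G))
    (hs : Pres (w i) (w (i + 1)) s) (l : Fin (q (i + 1))) :
    prj Ei s l ∈ cx (w (i + 1)) (fun a => w (i + 1) l = a) := by
  have e : prj Ei s l = (1 : Matrix _ _ (MonoidAlgebra ℂ G)) l - Ei l ᵥ* s := rfl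
  rw [e]
  exact Submodule.sub_mem _ (one_mem _ _) (vecMul_eq hs _ _ (pres_row hE l))

theorem exists_s (hX : OrdInv G X) (hw : ∀ i, Lx (w (i + 1)) (w i) (E i))
    (hM : Match E w k) (hcomp : ∀ i, E (i + 1) * E i = 0)
    (hex : ∀ i, i ≤ k → ∀ x, x ᵥ* E i = 0 → ∃ y, y ᵥ* E (i + 1) = x) (i : ℕ) (hi : i ≤ k) :
    ∃ s : Matrix (Fin (q i)) (Fin (q (i + 1))) (MonoidAlgebra ℂ G), Pres (w i) (w (i + 1)) s ∧
      levM (w (i + 1)) (w i) (E i) * (s * levM (w (i + 1)) (w i) (E i))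
        = levM (w (i + 1)) (w i) (E i) := by
  induction i with
  | zero =>
    obtain ⟨s, h1, h2⟩ := exists_s_zero hX hw hM
    exact ⟨s, h1, by rw [h2, Matrix.mul_one]⟩
  | succ i ih =>
    obtain ⟨s, h1, h2⟩ := ih (by omega)
    set Ei := levM (w (i + 1)) (w i) (E i) with hEi
    have hP : Pres (w (i + 1)) (w i) Ei := pres_levM _ _ _
    have h3 : prj Ei s * Ei = 0 := by
      rw [prj, Matrix.sub_mul, Matrix.one_mul, Matrix.mul_assoc, h2, sub_self]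
    have h := fun l => gr_exact_succ hX hw hM hex (w (i + 1) l) i hi _ (proj_rows Ei hP s h1 l)
      (rows_zero _ _ h3 l)
    choose s' hs1 hs2 using h
    have hs2' : (show Matrix (Fin (q (i + 1))) (Fin (q (i + 2))) (MonoidAlgebra ℂ G) from s')
        * levM (w (i + 2)) (w (i + 1)) (E (i + 1)) = prj Ei s := funext hs2
    refine ⟨s', fun j l t ht => hs1 j l t ht, ?_⟩
    rw [hs2', prj, Matrix.mul_sub, Matrix.mul_one, ← Matrix.mul_assoc,
      levM_mul_zero hX (hw i) (hw (i + 1)) (hcomp i), Matrix.zero_mul, sub_zero]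

theorem ker_zero_le (hX : OrdInv G X) (hw : ∀ i, Lx (w (i + 1)) (w i) (E i))
    (hM : Match E w k) (F : EE G (Fin (q 0))) (hF : opM (E 0) F = 0) : F = 0 := by
  obtain ⟨s, _, h2⟩ := exists_s_zero hX hw hM
  have h1 := lev_le hX (w 1) (w 0) (E 0) (hw 0)
  have h3 : vd (LinearMap.ker (opM (levM (w 1) (w 0) (E 0)) :
      EE G (Fin (q 0)) →ₗ[ℂ] EE G (Fin (q 1)))) = 0 := by
    apply vd_ker_of_injective
    rw [injective_iff_map_eq_zero]
    intro F hF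
    have := opM_one F
    rw [← h2, opM_mul, hF, map_zero] at this
    exact this.symm
  rw [h3] at h1
  have h4 := eq_bot_of_vd_eq_zero _ (inv_ker _ (opM_eqv (E 0))) h1
  have h5 : F ∈ LinearMap.ker (opM (E 0) : EE G (Fin (q 0)) →ₗ[ℂ] EE G (Fin (q 1))) := hF
  rw [h4, Submodule.mem_bot] at h5
  exact h5

/-- **Vanishing.** -/
theorem harm_le_zero (hX : OrdInv G X) (hw : ∀ i, Lx (w (i + 1)) (w i) (E i))
    (hM : Match E w k) (hcomp : ∀ i, E (i + 1) * E i = 0)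
    (hex : ∀ i, i ≤ k → ∀ x, x ᵥ* E i = 0 → ∃ y, y ᵥ* E (i + 1) = x) (i : ℕ) (hi : i ≤ k) :
    vd (harm (opM (E (i + 1))) (opM (E i))) ≤ 0 := by
  obtain ⟨s, h1, h2⟩ := exists_s hX hw hM hcomp hex i hi
  set Ei := levM (w (i + 1)) (w i) (E i) with hEi
  have hP : Pres (w (i + 1)) (w i) Ei := pres_levM _ _ _
  have h3 : prj Ei s * Ei = 0 := by
    rw [prj, Matrix.sub_mul, Matrix.one_mul, Matrix.mul_assoc, h2, sub_self]
  have hrow : ∀ l, ∃ c ∈ cx (w (i + 1)) (fun a => w (i + 1) l < a),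
      c ᵥ* E i = prj Ei s l ᵥ* E i := by
    intro l
    have hz := proj_rows Ei hP s h1 l
    have hz' := eq_le _ _ hz
    apply hM.inj _ i hi _ hz'
    apply mem_lt_of_tx _ _ _ (vecMul_le hX (hw i) _ _ hz')
    rw [tx_vecMul hX (hw i) _ _ hz', tx_eq_self _ _ _ hz]
    exact rows_zero _ _ h3 l
  choose c hc1 hc2 using hrow
  set R : Matrix (Fin (q (i + 1))) (Fin (q (i + 1))) (MonoidAlgebra ℂ G) :=
    fun l => prj Ei s l - c l with hR
  have hRl : ∀ l, R l = prj Ei s l - c l := fun l => rfl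
  have hR1 : ∀ l, ∃ y, y ᵥ* E (i + 1) = R l := by
    intro l
    apply hex i hi
    rw [hRl, Matrix.sub_vecMul, hc2, sub_self]
  have hk1 : vd (LinearMap.ker (opM (E (i + 1)) :
      EE G (Fin (q (i + 1))) →ₗ[ℂ] EE G (Fin (q (i + 2)))))
      ≤ vd (LinearMap.ker (opM R : EE G (Fin (q (i + 1))) →ₗ[ℂ] EE G (Fin (q (i + 1))))) := by
    apply vd_mono
    intro F hF
    change opM R F = 0
    rw [opM_eq_zero]
    intro l
    obtain ⟨y, hy⟩ := hR1 l
    rw [← hy, ← pr_opM]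
    have hF' : opM (E (i + 1)) F = 0 := hF
    rw [hF', pr_zero_right]
  have hRmem : ∀ l, R l ∈ cx (w (i + 1)) (fun a => w (i + 1) l ≤ a) := by
    intro l
    rw [hRl]
    exact Submodule.sub_mem _ (eq_le _ _ (proj_rows Ei hP s h1 l)) (lt_le _ _ (hc1 l))
  have hk2 := lev_le hX (w (i + 1)) (w (i + 1)) R (fun l j t ht => hRmem l j t ht)
  have hlev : levM (w (i + 1)) (w (i + 1)) R = prj Ei s := by
    funext l
    rw [levM_row, hRl, map_sub, tx_eq_zero _ _ _ (hc1 l), sub_zero]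
    exact tx_eq_self _ _ _ (proj_rows Ei hP s h1 l)
  rw [hlev] at hk2
  have hk3 : vd (LinearMap.ker (opM (prj Ei s) :
      EE G (Fin (q (i + 1))) →ₗ[ℂ] EE G (Fin (q (i + 1)))))
      ≤ vd (LinearMap.range (opM Ei : EE G (Fin (q i)) →ₗ[ℂ] EE G (Fin (q (i + 1))))) := by
    apply vd_mono
    intro F hF
    have hF' : opM (prj Ei s) F = 0 := hF
    have e := opM_add (prj Ei s) (Ei * s) F
    rw [prj, sub_add_cancel, ← prj, opM_one, hF', zero_add, opM_mul] at e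
    exact ⟨opM s F, e.symm⟩
  have hk4 := ker_add_range (opM Ei) (opM_eqv Ei)
  have hk5 := lev_le hX (w (i + 1)) (w i) (E i) (hw i)
  rw [vd_harm_eq _ _ (opM_eqv _) (opM_comp_zero _ _ (hcomp i))]
  linarith

/-- the `L²`-Morse inequality -/
theorem morse (hX : OrdInv G X) (hw : ∀ i, Lx (w (i + 1)) (w i) (E i))
    (hcomp : ∀ i, E (i + 1) * E i = 0) (i : ℕ) :
    vd (harm (opM (E (i + 1))) (opM (E i)))
      ≤ vd (harm (opM (levM (w (i + 2)) (w (i + 1)) (E (i + 1))))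
        (opM (levM (w (i + 1)) (w i) (E i)))) :=
  betti_le _ _ _ _ (opM_eqv _) (opM_eqv _) (opM_eqv _) (opM_comp_zero _ _ (hcomp i))
    (lev_le hX _ _ _ (hw (i + 1))) (lev_le hX _ _ _ (hw i))

end

section tw
variable {G : Type u} [Group G] {X : Type y} [MulAction G X] [LinearOrder X]

theorem tw_cx {J : Type v} [Fintype J] [DecidableEq J] (χ : G →* ℂ) (w0 : J → X) (p : X → Prop)
    (x : J → MonoidAlgebra ℂ G) (hx : x ∈ cx w0 p) : twV χ x ∈ cx w0 p := by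
  intro j t h
  apply hx j t
  intro h0
  apply h
  rw [twV_apply, tw_coeff, h0, mul_zero]

theorem tw_cx_iff {J : Type v} [Fintype J] [DecidableEq J] (χ : G →* ℂ) (w0 : J → X)
    (p : X → Prop) (x : J → MonoidAlgebra ℂ G) : twV χ x ∈ cx w0 p ↔ x ∈ cx w0 p := by
  constructor
  · intro h
    have := tw_cx (invC χ) w0 p _ h
    rwa [inv_twV] at this
  · exact tw_cx χ w0 p x

theorem tw_vec {J : Type v} [Fintype J] [DecidableEq J] {L : Type w} [Fintype L] [DecidableEq L]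
    (χ : G →* ℂ) (x : L → MonoidAlgebra ℂ G) (D : Matrix L J (MonoidAlgebra ℂ G)) :
    twV χ (x ᵥ* twM (invC χ) D) = twV χ x ᵥ* D := by
  have h := twV_vecMul (invC χ) (twV χ x) D
  rw [inv_twV] at h
  rw [← h, twV_inv]

variable {q : ℕ → ℕ} {E : ∀ i, Matrix (Fin (q (i + 1))) (Fin (q i)) (MonoidAlgebra ℂ G)}
  {w : ∀ i, Fin (q i) → X} {k : ℕ}

theorem tw_match (χ : G →* ℂ) (hM : Match E w k) :
    Match (fun i => twM (invC χ) (E i)) w k := by
  refine ⟨?_, ?_, ?_⟩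
  · intro x i hi y hy h
    rw [← tw_cx_iff χ, tw_vec] at h
    obtain ⟨y', hy', h'⟩ := hM.inj x i hi _ ((tw_cx_iff χ _ _ _).2 hy) h
    refine ⟨twV (invC χ) y', tw_cx _ _ _ _ hy', ?_⟩
    rw [← twV_vecMul, h', ← tw_vec, inv_twV]
  · intro x i hi y h
    rw [← tw_cx_iff χ, tw_vec] at h
    obtain ⟨y', hy', h'⟩ := hM.surj x i hi _ h
    refine ⟨twV (invC χ) y', tw_cx _ _ _ _ hy', ?_⟩
    rw [← tw_cx_iff χ, map_sub, tw_vec, tw_vec, twV_inv]
    exact h'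
  · intro x z
    obtain ⟨c, hc, y, hy⟩ := hM.neg x (twV χ z)
    refine ⟨twV (invC χ) c, tw_cx _ _ _ _ hc, twV (invC χ) y, ?_⟩
    rw [← twV_vecMul, hy, map_sub, inv_twV]

theorem tw_lx (χ : G →* ℂ) {J : Type v} {L : Type w} {w1 : L → X} {w0 : J → X}
    {D : Matrix L J (MonoidAlgebra ℂ G)} (h : Lx w1 w0 D) : Lx w1 w0 (twM (invC χ) D) := by
  intro l j t ht
  apply h l j t
  intro h0
  apply ht
  change (tw (invC χ) (D l j)).coeff t = 0
  rw [tw_coeff, h0, mul_zero]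

end tw

end Pool.Agent.V7H25.Sing
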