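import Pool.Agent.V7H25.Sing.Mor

set_option autoImplicit false
set_option linter.unusedSectionVars false

open scoped InnerProductSpace InnerProduct ENNReal
open scoped Matrix

/-! The comparison theorem for free resolutions of one-dimensional modules. -/

namespace Pool.Agent.V7H25.Sing

open Pool.Agent.W649.ZL Pool.Agent.N309.LO Pool.Agent.N309.PD

universe u v w z

section ring
variable {A : Type u} [Ring A]

theorem lift_rows {I : Type v} {J : Type w} {L : Type z} [Fintype L] (X : Matrix I J A)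
    (Q : Matrix L J A) (h : ∀ i, ∃ y, y ᵥ* Q = X i) : ∃ Y : Matrix I L A, Y * Q = X := by
  choose Y hY using h
  exact ⟨Y, funext hY⟩

theorem rows_zero {I : Type v} {J : Type w} {L : Type z} [Fintype L] (X : Matrix I L A)
    (Q : Matrix L J A) (h : X * Q = 0) (i : I) : X i ᵥ* Q = 0 := by
  have := congrFun h i
  exact this

/-- the step of the comparison theorem -/
theorem comp_step {P0 P1 P2 P3 Q0 Q1 Q2 : Type} [Fintype P0] [DecidableEq P0]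
    [Fintype P1] [DecidableEq P1] [Fintype P2] [DecidableEq P2] [Fintype P3] [Fintype Q0]
    [DecidableEq Q0] [Fintype Q1] [DecidableEq Q1] [Fintype Q2] [DecidableEq Q2]
    (A0 : Matrix P1 P0 A) (A1 : Matrix P2 P1 A) (A2 : Matrix P3 P2 A)
    (B0 : Matrix Q1 Q0 A) (B1 : Matrix Q2 Q1 A)
    (hA : A1 * A0 = 0) (hB : B1 * B0 = 0)
    (eA1 : ∀ x, x ᵥ* A0 = 0 → ∃ y, y ᵥ* A1 = x)
    (eA2 : ∀ x, x ᵥ* A1 = 0 → ∃ y, y ᵥ* A2 = x)
    (eB1 : ∀ x, x ᵥ* B0 = 0 → ∃ y, y ᵥ* B1 = x)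
    (f0 : Matrix P0 Q0 A) (f1 : Matrix P1 Q1 A) (g0 : Matrix Q0 P0 A) (g1 : Matrix Q1 P1 A)
    (s0 : Matrix P0 P1 A) (s1 : Matrix P1 P2 A)
    (hf : A0 * f0 = f1 * B0) (hg : B0 * g0 = g1 * A0) (hs : f1 * g1 + (s1 * A1 + A0 * s0) = 1) :
    ∃ (f2 : Matrix P2 Q2 A) (g2 : Matrix Q2 P2 A) (s2 : Matrix P2 P3 A),
      A1 * f1 = f2 * B1 ∧ B1 * g1 = g2 * A1 ∧ f2 * g2 + (s2 * A2 + A1 * s1) = 1 := by
  obtain ⟨f2, hf2⟩ : ∃ f2 : Matrix P2 Q2 A, f2 * B1 = A1 * f1 := by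
    apply lift_rows
    intro i
    apply eB1
    have h : (A1 * f1) * B0 = 0 := by
      rw [Matrix.mul_assoc, ← hf, ← Matrix.mul_assoc, hA, Matrix.zero_mul]
    exact rows_zero _ _ h i
  obtain ⟨g2, hg2⟩ : ∃ g2 : Matrix Q2 P2 A, g2 * A1 = B1 * g1 := by
    apply lift_rows
    intro i
    apply eA1
    have h : (B1 * g1) * A0 = 0 := by
      rw [Matrix.mul_assoc, ← hg, ← Matrix.mul_assoc, hB, Matrix.zero_mul]
    exact rows_zero _ _ h i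
  obtain ⟨s2, hs2⟩ : ∃ s2 : Matrix P2 P3 A, s2 * A2 = 1 - f2 * g2 - A1 * s1 := by
    apply lift_rows
    intro i
    apply eA2
    have h : (1 - f2 * g2 - A1 * s1) * A1 = 0 := by
      have e1 : (f2 * g2) * A1 = A1 * (f1 * g1) := by
        rw [Matrix.mul_assoc, hg2, ← Matrix.mul_assoc, hf2, Matrix.mul_assoc]
      have e2 : (A1 * s1) * A1 = A1 * (s1 * A1) := Matrix.mul_assoc _ _ _
      have e3 : s1 * A1 = 1 - f1 * g1 - A0 * s0 := by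
        rw [← hs]; abel
      rw [Matrix.sub_mul, Matrix.sub_mul, e1, e2, e3, Matrix.mul_sub, Matrix.mul_sub,
        ← Matrix.mul_assoc A1 A0 s0, hA, Matrix.zero_mul, Matrix.one_mul, Matrix.mul_one]
      abel
    exact rows_zero _ _ h i
  refine ⟨f2, g2, s2, hf2.symm, hg2.symm, ?_⟩
  rw [hs2]
  abel

end ring

section base
variable {G : Type u} [Group G] {J : Type v} [Fintype J] [DecidableEq J] {L : Type w} [Fintype L]
  [DecidableEq L]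

theorem phi_mul {φ : (J → MonoidAlgebra ℂ G) →ₗ[ℂ] ℂ} (χ : G →* ℂ)
    (hχ : ∀ (g : G) x, φ (gsm g x) = χ g * φ x) (α : MonoidAlgebra ℂ G)
    (y : J → MonoidAlgebra ℂ G) : φ (fun l => α * y l) = chi χ α * φ y := by
  induction α using MonoidAlgebra.induction_linear with
  | zero =>
    have e : (fun l => (0 : MonoidAlgebra ℂ G) * y l) = 0 := by funext l; exact zero_mul _
    rw [e, map_zero, map_zero, zero_mul]
  | add a b ha hb =>
    have e : (fun l => (a + b) * y l) = (fun l => a * y l) + fun l => b * y l := by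
      funext l; exact add_mul _ _ _
    rw [e, map_add, ha, hb, map_add, add_mul]
  | single g c =>
    have e : (fun l => (MonoidAlgebra.single g c : MonoidAlgebra ℂ G) * y l) = c • gsm g y := by
      funext l
      change _ = c • (MonoidAlgebra.single g 1 * y l)
      rw [← smul_mul_assoc, MonoidAlgebra.smul_single, smul_eq_mul, mul_one]
    rw [e, map_smul, hχ, chi_single, smul_eq_mul, mul_assoc]

theorem phi_vecMul {φ : (J → MonoidAlgebra ℂ G) →ₗ[ℂ] ℂ} (χ : G →* ℂ)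
    (hχ : ∀ (g : G) x, φ (gsm g x) = χ g * φ x) (x : L → MonoidAlgebra ℂ G)
    (f : Matrix L J (MonoidAlgebra ℂ G)) : φ (x ᵥ* f) = ∑ l, chi χ (x l) * φ (f l) := by
  have e : x ᵥ* f = ∑ l, fun j => x l * f l j := by
    funext j
    rw [Finset.sum_apply]
    rfl
  rw [e, map_sum]
  exact Finset.sum_congr rfl fun l _ => phi_mul χ hχ _ _

/-- a map of free modules which lifts the identity of the one-dimensional module -/
theorem exists_f0 {φ : (J → MonoidAlgebra ℂ G) →ₗ[ℂ] ℂ} {ψ : (L → MonoidAlgebra ℂ G) →ₗ[ℂ] ℂ}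
    (χ : G →* ℂ) (hχ : ∀ (g : G) x, φ (gsm g x) = χ g * φ x)
    (hχ' : ∀ (g : G) x, ψ (gsm g x) = χ g * ψ x) (hψ : ψ ≠ 0) :
    ∃ f : Matrix J L (MonoidAlgebra ℂ G), ∀ x, ψ (x ᵥ* f) = φ x := by
  obtain ⟨x1, hx1⟩ : ∃ x, ψ x ≠ 0 := by
    by_contra hcon
    push Not at hcon
    exact hψ (LinearMap.ext hcon)
  refine ⟨Matrix.of (fun j => (φ (Pi.single j 1) * (ψ x1)⁻¹) • x1), ?_⟩
  intro x
  rw [phi_vecMul χ hχ', phi_eq χ hχ x]
  refine Finset.sum_congr rfl fun j _ => ?_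
  change chi χ (x j) * ψ ((φ (Pi.single j 1) * (ψ x1)⁻¹) • x1) = _
  rw [map_smul, smul_eq_mul, mul_assoc, inv_mul_cancel₀ hx1, mul_one]

theorem one_row (i : J) : (1 : Matrix J J (MonoidAlgebra ℂ G)) i = Pi.single i 1 := by
  funext j
  by_cases h : j = i
  · subst h
    rw [Pi.single_eq_same, Matrix.one_apply_eq]
  · rw [Pi.single_eq_of_ne h, Matrix.one_apply_ne (Ne.symm h)]

theorem row_eq (A : Matrix L J (MonoidAlgebra ℂ G)) (l : L) :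
    (Pi.single l 1 : L → MonoidAlgebra ℂ G) ᵥ* A = A l := by
  rw [← one_row l]
  have := congrFun (Matrix.one_mul A) l
  exact this

end base

section main
variable {G : Type u} [Group G]

/-- the comparison theorem -/
theorem comparison {p q : ℕ → ℕ} (P : ∀ i, Matrix (Fin (p (i + 1))) (Fin (p i)) (MonoidAlgebra ℂ G))
    (Q : ∀ i, Matrix (Fin (q (i + 1))) (Fin (q i)) (MonoidAlgebra ℂ G))
    (hPc : ∀ i, P (i + 1) * P i = 0) (hQc : ∀ i, Q (i + 1) * Q i = 0)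
    (φ : (Fin (p 0) → MonoidAlgebra ℂ G) →ₗ[ℂ] ℂ) (ψ : (Fin (q 0) → MonoidAlgebra ℂ G) →ₗ[ℂ] ℂ)
    (hφ : φ ≠ 0) (hψ : ψ ≠ 0)
    (hP0 : ∀ x, (∃ y, y ᵥ* P 0 = x) ↔ φ x = 0) (hQ0 : ∀ x, (∃ y, y ᵥ* Q 0 = x) ↔ ψ x = 0)
    (χ : G →* ℂ) (hχ : ∀ (g : G) x, φ (gsm g x) = χ g * φ x)
    (hχ' : ∀ (g : G) x, ψ (gsm g x) = χ g * ψ x) (m : ℕ)
    (hPe : ∀ i, i ≤ m → ∀ x, x ᵥ* P i = 0 → ∃ y, y ᵥ* P (i + 1) = x)
    (hQe : ∀ i, i < m → ∀ x, x ᵥ* Q i = 0 → ∃ y, y ᵥ* Q (i + 1) = x) (k : ℕ) (hk : k ≤ m) :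
    ∃ (f0 : Matrix (Fin (p k)) (Fin (q k)) (MonoidAlgebra ℂ G))
      (f1 : Matrix (Fin (p (k + 1))) (Fin (q (k + 1))) (MonoidAlgebra ℂ G))
      (g0 : Matrix (Fin (q k)) (Fin (p k)) (MonoidAlgebra ℂ G))
      (g1 : Matrix (Fin (q (k + 1))) (Fin (p (k + 1))) (MonoidAlgebra ℂ G))
      (s0 : Matrix (Fin (p k)) (Fin (p (k + 1))) (MonoidAlgebra ℂ G))
      (s1 : Matrix (Fin (p (k + 1))) (Fin (p (k + 2))) (MonoidAlgebra ℂ G)),
      P k * f0 = f1 * Q k ∧ Q k * g0 = g1 * P k ∧ f1 * g1 + (s1 * P (k + 1) + P k * s0) = 1 := by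
  induction k with
  | zero =>
    obtain ⟨f0, hf0⟩ := exists_f0 χ hχ hχ' hψ
    obtain ⟨g0, hg0⟩ := exists_f0 χ hχ' hχ hφ
    have hrow : ∀ l, φ (P 0 l) = 0 := fun l => (hP0 _).1 ⟨_, row_eq (P 0) l⟩
    have hrow' : ∀ l, ψ (Q 0 l) = 0 := fun l => (hQ0 _).1 ⟨_, row_eq (Q 0) l⟩
    obtain ⟨f1, hf1⟩ : ∃ f1 : Matrix (Fin (p 1)) (Fin (q 1)) (MonoidAlgebra ℂ G),
        f1 * Q 0 = P 0 * f0 := by
      apply lift_rows
      intro i
      rw [hQ0]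
      change ψ (P 0 i ᵥ* f0) = 0
      rw [hf0, hrow]
    obtain ⟨g1, hg1⟩ : ∃ g1 : Matrix (Fin (q 1)) (Fin (p 1)) (MonoidAlgebra ℂ G),
        g1 * P 0 = Q 0 * g0 := by
      apply lift_rows
      intro i
      rw [hP0]
      change φ (Q 0 i ᵥ* g0) = 0
      rw [hg0, hrow']
    obtain ⟨s0, hs0⟩ : ∃ s0 : Matrix (Fin (p 0)) (Fin (p 1)) (MonoidAlgebra ℂ G),
        s0 * P 0 = 1 - f0 * g0 := by
      apply lift_rows
      intro i
      rw [hP0]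
      change φ ((1 : Matrix (Fin (p 0)) (Fin (p 0)) (MonoidAlgebra ℂ G)) i - f0 i ᵥ* g0) = 0
      rw [map_sub, hg0, one_row, ← row_eq f0 i, hf0, sub_self]
    obtain ⟨s1, hs1⟩ : ∃ s1 : Matrix (Fin (p 1)) (Fin (p 2)) (MonoidAlgebra ℂ G),
        s1 * P 1 = 1 - f1 * g1 - P 0 * s0 := by
      apply lift_rows
      intro i
      apply hPe 0 (Nat.zero_le _)
      have h : (1 - f1 * g1 - P 0 * s0) * P 0 = 0 := by
        have e1 : (f1 * g1) * P 0 = P 0 * (f0 * g0) := by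
          rw [Matrix.mul_assoc, hg1, ← Matrix.mul_assoc, hf1, Matrix.mul_assoc]
        rw [Matrix.sub_mul, Matrix.sub_mul, e1, Matrix.mul_assoc, hs0, Matrix.mul_sub,
          Matrix.one_mul, Matrix.mul_one]
        abel
      exact rows_zero _ _ h i
    refine ⟨f0, f1, g0, g1, s0, s1, hf1.symm, hg1.symm, ?_⟩
    rw [hs1]
    abel
  | succ k ih =>
    obtain ⟨f0, f1, g0, g1, s0, s1, hf, hg, hs⟩ := ih (by omega)
    obtain ⟨f2, g2, s2, h1, h2, h3⟩ := comp_step (P k) (P (k + 1)) (P (k + 2)) (Q k) (Q (k + 1))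
      (hPc k) (hQc k) (hPe k (by omega)) (hPe (k + 1) (by omega)) (hQe k (by omega))
      f0 f1 g0 g1 s0 s1 hf hg hs
    exact ⟨f1, f2, g1, g2, s1, s2, h1, h2, h3⟩

/-- **Invariance of the `L²`-Betti numbers.** Two free resolutions of the same one-dimensional
module: the dimension of the harmonic cochains of the first in degree `k + 1` is at most that of the
second. -/
theorem harm_le_harm {p q : ℕ → ℕ}
    (P : ∀ i, Matrix (Fin (p (i + 1))) (Fin (p i)) (MonoidAlgebra ℂ G))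
    (Q : ∀ i, Matrix (Fin (q (i + 1))) (Fin (q i)) (MonoidAlgebra ℂ G))
    (hPc : ∀ i, P (i + 1) * P i = 0) (hQc : ∀ i, Q (i + 1) * Q i = 0)
    (φ : (Fin (p 0) → MonoidAlgebra ℂ G) →ₗ[ℂ] ℂ) (ψ : (Fin (q 0) → MonoidAlgebra ℂ G) →ₗ[ℂ] ℂ)
    (hφ : φ ≠ 0) (hψ : ψ ≠ 0)
    (hP0 : ∀ x, (∃ y, y ᵥ* P 0 = x) ↔ φ x = 0) (hQ0 : ∀ x, (∃ y, y ᵥ* Q 0 = x) ↔ ψ x = 0)
    (χ : G →* ℂ) (hχ : ∀ (g : G) x, φ (gsm g x) = χ g * φ x)
    (hχ' : ∀ (g : G) x, ψ (gsm g x) = χ g * ψ x) (k : ℕ)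
    (hPe : ∀ i, i ≤ k → ∀ x, x ᵥ* P i = 0 → ∃ y, y ᵥ* P (i + 1) = x)
    (hQe : ∀ i, i < k → ∀ x, x ᵥ* Q i = 0 → ∃ y, y ᵥ* Q (i + 1) = x) :
    vd (harm (opM (P (k + 1))) (opM (P k))) ≤ vd (harm (opM (Q (k + 1))) (opM (Q k))) := by
  obtain ⟨f0, f1, g0, g1, s0, s1, hf, hg, hs⟩ := comparison P Q hPc hQc φ ψ hφ hψ hP0 hQ0 χ hχ hχ'
    k hPe hQe k (le_refl k)
  obtain ⟨g2, hg2⟩ : ∃ g2 : Matrix (Fin (q (k + 2))) (Fin (p (k + 2))) (MonoidAlgebra ℂ G),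
      g2 * P (k + 1) = Q (k + 1) * g1 := by
    apply lift_rows
    intro i
    apply hPe k (le_refl k)
    have h : (Q (k + 1) * g1) * P k = 0 := by
      rw [Matrix.mul_assoc, ← hg, ← Matrix.mul_assoc, hQc, Matrix.zero_mul]
    exact rows_zero _ _ h i
  exact harm_transfer (P k) (P (k + 1)) (Q k) (Q (k + 1)) (hQc k) f0 f1 g1 g2 s0 s1 hf hg2.symm hs

end main

end Pool.Agent.V7H25.Sing
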