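import Mathlib

set_option autoImplicit false

/-! Dimensions of subquotients of vector spaces. -/

namespace Pool.Agent.V7H25.Sing

open Module

universe u v w z

section
variable {K : Type u} [Field K] {V : Type v} [AddCommGroup V] [Module K V]
  {V1 : Type w} [AddCommGroup V1] [Module K V1] {V2 : Type z} [AddCommGroup V2] [Module K V2]

/-- the images of a subspace under two maps with the same kernel on it -/
theorem map_equiv_of_ker (M : Submodule K V) (f : V →ₗ[K] V1) (g : V →ₗ[K] V2)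
    (h : ∀ x ∈ M, f x = 0 ↔ g x = 0) : Nonempty (M.map f ≃ₗ[K] M.map g) := by
  have h1 : LinearMap.ker (f.domRestrict M) = LinearMap.ker (g.domRestrict M) := by
    ext ⟨x, hx⟩
    exact h x hx
  have e1 := (f.domRestrict M).quotKerEquivRange
  have e2 := (g.domRestrict M).quotKerEquivRange
  rw [LinearMap.range_domRestrict] at e1 e2
  rw [h1] at e1
  exact ⟨e1.symm.trans e2⟩

theorem finrank_map_of_ker (M : Submodule K V) (f : V →ₗ[K] V1) (g : V →ₗ[K] V2)
    (h : ∀ x ∈ M, f x = 0 ↔ g x = 0) : finrank K (M.map f) = finrank K (M.map g) :=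
  (map_equiv_of_ker M f g h).some.finrank_eq

theorem finite_map_of_ker (M : Submodule K V) (f : V →ₗ[K] V1) (g : V →ₗ[K] V2)
    (h : ∀ x ∈ M, f x = 0 ↔ g x = 0) (hf : Module.Finite K (M.map f)) :
    Module.Finite K (M.map g) :=
  Module.Finite.equiv (map_equiv_of_ker M f g h).some

/-- relative rank-nullity -/
theorem finrank_map_comp (U : Submodule K V) (f : V →ₗ[K] V1) (h : V1 →ₗ[K] V2)
    [Module.Finite K (U.map f)] :
    finrank K (U.map f) = finrank K ((U ⊓ LinearMap.ker (h ∘ₗ f)).map f)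
      + finrank K (U.map (h ∘ₗ f)) := by
  have h1 := LinearMap.finrank_range_add_finrank_ker (h.domRestrict (U.map f))
  rw [LinearMap.range_domRestrict, ← Submodule.map_comp] at h1
  have h2 : finrank K (LinearMap.ker (h.domRestrict (U.map f)))
      = finrank K ((U ⊓ LinearMap.ker (h ∘ₗ f)).map f) := by
    have e : (LinearMap.ker (h.domRestrict (U.map f))).map (U.map f).subtype
        = (U ⊓ LinearMap.ker (h ∘ₗ f)).map f := by
      ext y
      constructor
      · rintro ⟨⟨z, ⟨x, hx, rfl⟩⟩, hz, rfl⟩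
        exact ⟨x, ⟨hx, hz⟩, rfl⟩
      · rintro ⟨x, ⟨hx, hk⟩, rfl⟩
        exact ⟨⟨f x, ⟨x, hx, rfl⟩⟩, hk, rfl⟩
    rw [← e]
    exact (LinearEquiv.finrank_eq (Submodule.equivMapOfInjective (U.map f).subtype
      (Submodule.injective_subtype _) _))
  rw [h2] at h1
  omega

theorem finite_map_comp (U : Submodule K V) (f : V →ₗ[K] V1) (h : V1 →ₗ[K] V2)
    (h1 : Module.Finite K ((U ⊓ LinearMap.ker (h ∘ₗ f)).map f))
    (h2 : Module.Finite K (U.map (h ∘ₗ f))) : Module.Finite K (U.map f) := by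
  rw [Module.Finite.iff_fg]
  apply Submodule.fg_of_fg_map_of_fg_inf_ker h
  · rw [← Submodule.map_comp]
    exact Module.Finite.iff_fg.1 h2
  · have e : U.map f ⊓ LinearMap.ker h = (U ⊓ LinearMap.ker (h ∘ₗ f)).map f := by
      ext y
      constructor
      · rintro ⟨⟨x, hx, rfl⟩, hz⟩
        exact ⟨x, ⟨hx, hz⟩, rfl⟩
      · rintro ⟨x, ⟨hx, hk⟩, rfl⟩
        exact ⟨⟨x, hx, rfl⟩, hk⟩
    rw [e]
    exact Module.Finite.iff_fg.1 h1

/-- the relative dimension `dim (U + W) / W` -/
noncomputable def rd (U W : Submodule K V) : ℕ := finrank K (U.map W.mkQ)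

/-- finiteness of the relative dimension -/
def RF (U W : Submodule K V) : Prop := Module.Finite K (U.map W.mkQ)

theorem rd_of_ker (U W : Submodule K V) (g : V →ₗ[K] V2) (h : ∀ x ∈ U, x ∈ W ↔ g x = 0) :
    rd U W = finrank K (U.map g) := by
  apply finrank_map_of_ker
  intro x hx
  rw [← h x hx, Submodule.mkQ_apply, Submodule.Quotient.mk_eq_zero]

theorem rf_of_ker (U W : Submodule K V) (g : V →ₗ[K] V2) (h : ∀ x ∈ U, x ∈ W ↔ g x = 0) :
    RF U W ↔ Module.Finite K (U.map g) := by
  constructor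
  · intro hf
    apply finite_map_of_ker U W.mkQ g _ hf
    intro x hx
    rw [← h x hx, Submodule.mkQ_apply, Submodule.Quotient.mk_eq_zero]
  · intro hf
    apply finite_map_of_ker U g W.mkQ _ hf
    intro x hx
    rw [← h x hx, Submodule.mkQ_apply, Submodule.Quotient.mk_eq_zero]

/-- additivity of the relative dimension -/
theorem rd_add (U W1 W2 : Submodule K V) (h : W1 ≤ W2) (hf : RF U W1) :
    rd U W1 = rd (U ⊓ W2) W1 + rd U W2 := by
  have : Module.Finite K (U.map W1.mkQ) := hf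
  have h1 := finrank_map_comp U W1.mkQ (Submodule.mapQ W1 W2 LinearMap.id h)
  have e : (Submodule.mapQ W1 W2 LinearMap.id h) ∘ₗ W1.mkQ = W2.mkQ := by
    ext x; rfl
  rw [e, Submodule.ker_mkQ] at h1
  exact h1

theorem rf_add (U W1 W2 : Submodule K V) (h : W1 ≤ W2) (hf1 : RF (U ⊓ W2) W1) (hf2 : RF U W2) :
    RF U W1 := by
  have e : (Submodule.mapQ W1 W2 LinearMap.id h) ∘ₗ W1.mkQ = W2.mkQ := by
    ext x; rfl
  apply finite_map_comp U W1.mkQ (Submodule.mapQ W1 W2 LinearMap.id h)
  · rw [e, Submodule.ker_mkQ]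
    exact hf1
  · rw [e]
    exact hf2

theorem rf_mono {U U' W : Submodule K V} (h : U ≤ U') (hf : RF U' W) : RF U W := by
  have : Module.Finite K (U'.map W.mkQ) := hf
  exact Submodule.finiteDimensional_of_le (Submodule.map_mono h)

theorem rf_right {U W W' : Submodule K V} (h : W ≤ W') (hf : RF U W) : RF U W' := by
  have : Module.Finite K (U.map W.mkQ) := hf
  have e : (Submodule.mapQ W W' LinearMap.id h) ∘ₗ W.mkQ = W'.mkQ := by
    ext x; rfl
  unfold RF
  rw [← e, Submodule.map_comp]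
  infer_instance

theorem rd_sup (U W : Submodule K V) : rd (U ⊔ W) W = rd U W := by
  unfold rd
  rw [Submodule.map_sup, Submodule.mkQ_map_self, sup_bot_eq]

theorem rd_sup' (U W : Submodule K V) : rd (W ⊔ U) W = rd U W := by
  rw [sup_comm, rd_sup]

/-- the index formula -/
theorem index_eq (S S' M M' : Submodule K V) (h2 : S ≤ M) (h3 : S' ≤ M')
    (h4 : M' ≤ M) (hS : RF S S') (hM : RF M M') :
    rd S S' + rd M (M' ⊔ S) = rd M M' + rd (M' ⊓ S) S' := by
  have a1 := rd_add S S' M' h3 hS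
  have a2 := rd_add M M' (M' ⊔ S) le_sup_left hM
  have e1 : M ⊓ (M' ⊔ S) = M' ⊔ S := inf_eq_right.2 (sup_le h4 h2)
  rw [e1, rd_sup'] at a2
  rw [inf_comm S M'] at a1
  omega

/-- if `M / S` is finite-dimensional and the dimension of `M' / S'` is not larger, the dimension of
`S / S'` is at most that of `M / M'` -/
theorem index_le (S S' M M' : Submodule K V) (h1 : S' ≤ S) (h2 : S ≤ M) (h3 : S' ≤ M')
    (h4 : M' ≤ M) (hS : RF S S') (hMS : RF M S)
    (hle : RF M' S' → rd M' S' ≤ rd M S) : rd S S' ≤ rd M M' := by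
  have hf : RF M S' := by
    apply rf_add M S' S h1 _ hMS
    rw [inf_eq_right.2 h2]
    exact hS
  have a1 := rd_add M S' S h1 hf
  have a2 := rd_add M S' M' h3 hf
  rw [inf_eq_right.2 h2] at a1
  rw [inf_eq_right.2 h4] at a2
  have a3 := hle (rf_mono h4 hf)
  omega

end

end Pool.Agent.V7H25.Sing
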