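import Pool.Agent.V7H25.Sing.Lev
import Pool.Agent.V7H25.Sing.Lin

set_option autoImplicit false
set_option linter.unusedSectionVars false

open scoped Matrix

/-! Chains above a level, their cycles and boundaries. -/

namespace Pool.Agent.V7H25.Sing

open Pool.Agent.W649.ZL Pool.Agent.N309.LO Pool.Agent.N309.PD Module

universe u v w z y

section alg
variable {G : Type u} [Group G] {J : Type v} [Fintype J] [DecidableEq J] {L : Type w} [Fintype L]
  [DecidableEq L] {M : Type z} [Fintype M] [DecidableEq M]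

theorem coeff_mul_ne (x y : MonoidAlgebra ℂ G) (t : G) (h : (x * y).coeff t ≠ 0) :
    ∃ a b, a * b = t ∧ x.coeff a ≠ 0 ∧ y.coeff b ≠ 0 := by
  classical
  rw [MonoidAlgebra.coeff_mul] at h
  obtain ⟨a, ha, h1⟩ := Finset.exists_ne_zero_of_sum_ne_zero h
  obtain ⟨b, hb, h2⟩ := Finset.exists_ne_zero_of_sum_ne_zero h1
  refine ⟨a, b, ?_, Finsupp.mem_support_iff.1 ha, Finsupp.mem_support_iff.1 hb⟩
  by_contra hne
  exact h2 (if_neg hne)

/-- the boundary map of a matrix -/
noncomputable def bdm (D : Matrix L J (MonoidAlgebra ℂ G)) :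
    (L → MonoidAlgebra ℂ G) →ₗ[ℂ] (J → MonoidAlgebra ℂ G) where
  toFun x := x ᵥ* D
  map_add' x y := Matrix.add_vecMul D x y
  map_smul' c x := Matrix.smul_vecMul c x D

theorem bdm_apply (D : Matrix L J (MonoidAlgebra ℂ G)) (x : L → MonoidAlgebra ℂ G) :
    bdm D x = x ᵥ* D := rfl

/-- the chains all whose terms have a level satisfying `p` -/
noncomputable def ch {J : Type v} (w : J → G) (p : G → Prop) : Submodule ℂ (J → MonoidAlgebra ℂ G) where
  carrier := {x | ∀ j k, (x j).coeff k ≠ 0 → p (k * w j)}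
  add_mem' := by
    intro x y hx hy j k h
    by_contra hp
    have h1 : (x j).coeff k = 0 := by
      by_contra h'
      exact hp (hx j k h')
    have h2 : (y j).coeff k = 0 := by
      by_contra h'
      exact hp (hy j k h')
    apply h
    change (x j).coeff k + (y j).coeff k = 0
    rw [h1, h2, add_zero]
  zero_mem' := by
    intro j k h
    exact absurd rfl h
  smul_mem' := by
    intro c x hx j k h
    apply hx
    intro h1
    apply h
    change c • (x j).coeff k = 0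
    rw [h1, smul_zero]

theorem mem_ch (w : J → G) (p : G → Prop) (x : J → MonoidAlgebra ℂ G) :
    x ∈ ch w p ↔ ∀ j k, (x j).coeff k ≠ 0 → p (k * w j) := Iff.rfl

theorem ch_mono (w : J → G) {p q : G → Prop} (h : ∀ g, p g → q g) : ch w p ≤ ch w q :=
  fun _ hx j k hk => h _ (hx j k hk)

/-- the boundaries of the chains -/
noncomputable def bds (w1 : L → G) (D : Matrix L J (MonoidAlgebra ℂ G)) (p : G → Prop) :
    Submodule ℂ (J → MonoidAlgebra ℂ G) := (ch w1 p).map (bdm D)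

/-- the chains which are boundaries in the whole complex -/
noncomputable def cyc (w0 : J → G) (D : Matrix L J (MonoidAlgebra ℂ G)) (p : G → Prop) :
    Submodule ℂ (J → MonoidAlgebra ℂ G) := ch w0 p ⊓ LinearMap.range (bdm D)

theorem bds_mono (w1 : L → G) (D : Matrix L J (MonoidAlgebra ℂ G)) {p q : G → Prop}
    (h : ∀ g, p g → q g) : bds w1 D p ≤ bds w1 D q := Submodule.map_mono (ch_mono w1 h)

theorem cyc_mono (w0 : J → G) (D : Matrix L J (MonoidAlgebra ℂ G)) {p q : G → Prop}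
    (h : ∀ g, p g → q g) : cyc w0 D p ≤ cyc w0 D q :=
  inf_le_inf_right _ (ch_mono w0 h)

end alg

section ord
variable {G : Type u} [Group G] [LinearOrder G] {J : Type v} [Fintype J] [DecidableEq J]
  {L : Type w} [Fintype L] [DecidableEq L] {M : Type z} [Fintype M] [DecidableEq M]

/-- boundaries have no terms of lower level -/
def Lv (w1 : L → G) (w0 : J → G) (D : Matrix L J (MonoidAlgebra ℂ G)) : Prop :=
  ∀ l j t, (D l j).coeff t ≠ 0 → w1 l ≤ t * w0 j

theorem bd_mem (hG : ∀ g a b : G, a ≤ b → g * a ≤ g * b) {w1 : L → G} {w0 : J → G}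
    {D : Matrix L J (MonoidAlgebra ℂ G)} (hD : Lv w1 w0 D) {p : G → Prop}
    (hp : ∀ a b, a ≤ b → p a → p b) (x : L → MonoidAlgebra ℂ G) (hx : x ∈ ch w1 p) :
    x ᵥ* D ∈ ch w0 p := by
  intro j t h
  have e : (x ᵥ* D) j = ∑ l, x l * D l j := rfl
  rw [e, MonoidAlgebra.coeff_sum, Finsupp.finsetSum_apply] at h
  obtain ⟨l, _, hl⟩ := Finset.exists_ne_zero_of_sum_ne_zero h
  obtain ⟨a, b, hab, ha, hb⟩ := coeff_mul_ne _ _ _ hl
  rw [← hab, mul_assoc]
  exact hp _ _ (hG a _ _ (hD l j b hb)) (hx l a ha)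

theorem bds_le_cyc (hG : ∀ g a b : G, a ≤ b → g * a ≤ g * b) {w1 : L → G} {w0 : J → G}
    {D : Matrix L J (MonoidAlgebra ℂ G)} (hD : Lv w1 w0 D) {p : G → Prop}
    (hp : ∀ a b, a ≤ b → p a → p b) : bds w1 D p ≤ cyc w0 D p := by
  rintro _ ⟨x, hx, rfl⟩
  exact ⟨bd_mem hG hD hp x hx, ⟨x, rfl⟩⟩

/-- strictly positive part inside the nonnegative part: no terms of level one -/
theorem mem_gt_iff (w : J → G) (x : J → MonoidAlgebra ℂ G) (hx : x ∈ ch w (fun g => 1 ≤ g)) :
    x ∈ ch w (fun g => 1 < g) ↔ top w x = 0 := by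
  constructor
  · intro h
    funext j
    by_contra hne
    have h1 := h j (w j)⁻¹ hne
    rw [inv_mul_cancel] at h1
    exact lt_irrefl _ h1
  · intro h j k hk
    refine lt_of_le_of_ne (hx j k hk) ?_
    intro he
    apply hk
    have e : k = (w j)⁻¹ := eq_inv_of_mul_eq_one_left he.symm
    rw [e]
    exact congrFun h j

/-- every vector is the top of a nonnegative chain -/
theorem top_surj (w : J → G) : (ch w (fun g => 1 ≤ g)).map (top w) = ⊤ := by
  classical
  rw [eq_top_iff]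
  intro v _
  refine ⟨fun j => MonoidAlgebra.single (w j)⁻¹ (v j), ?_, ?_⟩
  · intro j k hk
    rw [MonoidAlgebra.coeff_single, Finsupp.single_apply] at hk
    by_cases h : (w j)⁻¹ = k
    · rw [← h, inv_mul_cancel]
    · rw [if_neg h] at hk
      exact absurd rfl hk
  · funext j
    rw [top_apply, MonoidAlgebra.coeff_single, Finsupp.single_eq_same]

/-- the relative dimension of the cycles -/
theorem rf_cyc (w0 : J → G) (D : Matrix L J (MonoidAlgebra ℂ G)) :
    RF (cyc w0 D (fun g => 1 ≤ g)) (cyc w0 D (fun g => 1 < g)) := by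
  rw [rf_of_ker _ _ (top w0)]
  · infer_instance
  · intro x hx
    rw [← mem_gt_iff w0 x hx.1]
    exact ⟨fun h => h.1, fun h => ⟨h, hx.2⟩⟩

theorem rd_cyc (w0 : J → G) (D : Matrix L J (MonoidAlgebra ℂ G)) :
    rd (cyc w0 D (fun g => 1 ≤ g)) (cyc w0 D (fun g => 1 < g))
      = finrank ℂ ((cyc w0 D (fun g => 1 ≤ g)).map (top w0)) := by
  apply rd_of_ker
  intro x hx
  rw [← mem_gt_iff w0 x hx.1]
  exact ⟨fun h => h.1, fun h => ⟨h, hx.2⟩⟩

/-- the relative dimension of the boundaries -/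
theorem bds_ker {w1 : L → G} {D : Matrix L J (MonoidAlgebra ℂ G)}
    {D' : Matrix M L (MonoidAlgebra ℂ G)} (hDD : D' * D = 0)
    (hex : ∀ x, x ᵥ* D = 0 → ∃ y, y ᵥ* D' = x) (x : L → MonoidAlgebra ℂ G)
    (hx : x ∈ ch w1 (fun g => 1 ≤ g)) :
    ((bds w1 D (fun g => 1 < g)).mkQ ∘ₗ bdm D) x = 0 ↔
      (((cyc w1 D' (fun g => 1 ≤ g)).map (top w1)).mkQ ∘ₗ top w1) x = 0 := by
  rw [LinearMap.comp_apply, LinearMap.comp_apply, Submodule.mkQ_apply, Submodule.mkQ_apply,
    Submodule.Quotient.mk_eq_zero, Submodule.Quotient.mk_eq_zero]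
  constructor
  · rintro ⟨y, hy, he⟩
    have hz : (x - y) ᵥ* D = 0 := by
      have := sub_eq_zero.2 he.symm
      rw [← map_sub] at this
      exact this
    obtain ⟨z, hz'⟩ := hex _ hz
    have hy' := ch_mono w1 (fun g (h : 1 < g) => h.le) hy
    refine ⟨x - y, ⟨Submodule.sub_mem _ hx hy', ⟨z, hz'⟩⟩, ?_⟩
    rw [map_sub, (mem_gt_iff w1 y hy').1 hy, sub_zero]
  · rintro ⟨z, ⟨hz, ⟨y, hy⟩⟩, he⟩
    refine ⟨x - z, ?_, ?_⟩
    · apply (mem_gt_iff w1 _ (Submodule.sub_mem _ hx hz)).2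
      rw [map_sub, he, sub_self]
    · rw [map_sub]
      have : bdm D z = 0 := by
        rw [← hy, bdm_apply, bdm_apply, Matrix.vecMul_vecMul, hDD, Matrix.vecMul_zero]
      rw [this, sub_zero]

theorem rf_bds {w1 : L → G} {D : Matrix L J (MonoidAlgebra ℂ G)}
    {D' : Matrix M L (MonoidAlgebra ℂ G)} (hDD : D' * D = 0)
    (hex : ∀ x, x ᵥ* D = 0 → ∃ y, y ᵥ* D' = x) :
    RF (bds w1 D (fun g => 1 ≤ g)) (bds w1 D (fun g => 1 < g)) := by
  unfold RF
  have h := finite_map_of_ker (ch w1 (fun g => 1 ≤ g)) _ _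
    (fun x hx => (bds_ker (w1 := w1) hDD hex x hx).symm) inferInstance
  rw [Submodule.map_comp] at h
  exact h

theorem rd_bds {w1 : L → G} {D : Matrix L J (MonoidAlgebra ℂ G)}
    {D' : Matrix M L (MonoidAlgebra ℂ G)} (hDD : D' * D = 0)
    (hex : ∀ x, x ᵥ* D = 0 → ∃ y, y ᵥ* D' = x) :
    rd (bds w1 D (fun g => 1 ≤ g)) (bds w1 D (fun g => 1 < g))
      + finrank ℂ ((cyc w1 D' (fun g => 1 ≤ g)).map (top w1)) = Fintype.card L := by
  have h := finrank_map_of_ker (ch w1 (fun g => 1 ≤ g)) _ _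
    (fun x hx => (bds_ker (w1 := w1) hDD hex x hx))
  rw [Submodule.map_comp, Submodule.map_comp (top w1), top_surj, Submodule.map_top,
    Submodule.range_mkQ, finrank_top] at h
  have h2 := Submodule.finrank_quotient_add_finrank ((cyc w1 D' (fun g => 1 ≤ g)).map (top w1))
  rw [Module.finrank_pi] at h2
  unfold rd
  rw [← h2, ← h]
  rfl

end ord

end Pool.Agent.V7H25.Sing
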