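import Pool.Agent.V7H25.Sing.ActB
import Pool.Agent.Results.MP_984acc_gt.ConnectedPositiveCones

set_option autoImplicit false
set_option linter.unusedSectionVars false

open scoped Matrix

/-! Betti numbers of duality complexes: Euler characteristic, transfer in degree zero. -/

namespace Pool.Agent.V7H25.Sing

open Pool.Agent.W649.ZL Pool.Agent.N309.LO Pool.Agent.N309.PD Module
open Pool.Agent.Results.MP_984acc_gt.ConnectedPositiveCones (Matrices HasAugmentation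
  IsDualityComplex betti betti_eq harmonic_zero harmonic_succ)

universe u v w z y

section
variable {G : Type u} [Group G]

theorem betti_nonneg {r : ℕ → ℕ} (D : Matrices G r) (i : ℕ) : 0 ≤ betti D i := by
  cases i with
  | zero =>
    rw [betti_eq D 0 _ (ContinuousLinearMap.isClosed_ker _) (harmonic_zero D)]
    exact vd_nonneg _
  | succ i =>
    rw [betti_eq D (i + 1) _ (harm_closed _ _) (harmonic_succ D i)]
    exact vd_nonneg _

theorem betti_succ {r : ℕ → ℕ} (D : Matrices G r) (i : ℕ) :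
    betti D (i + 1) = vd (harm (opM (D (i + 1))) (opM (D i))) := by
  rw [betti_eq D (i + 1) _ (harm_closed _ _) (harmonic_succ D i)]

theorem betti_zero {r : ℕ → ℕ} (D : Matrices G r) :
    betti D 0 = vd (LinearMap.ker (opM (D 0) : EE G (Fin (r 0)) →ₗ[ℂ] EE G (Fin (r 1)))) := by
  rw [betti_eq D 0 _ (ContinuousLinearMap.isClosed_ker _) (harmonic_zero D)]

/-- the functional of a resolution of the trivial module -/
theorem exists_aug {q : ℕ → ℕ} (E : Matrices G q) (hE : HasAugmentation E) :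
    ∃ φ : (Fin (q 0) → MonoidAlgebra ℂ G) →ₗ[ℂ] ℂ, φ ≠ 0 ∧
      (∀ x, (∃ y, y ᵥ* E 0 = x) ↔ φ x = 0) ∧ ∀ (g : G) x, φ (gsm g x) = φ x := by
  obtain ⟨a, ha0, ha⟩ := hE
  refine ⟨augF a, augF_ne a ha0, ?_, augF_inv a⟩
  intro x
  rw [ha, augF_apply]
  simp only [augm_eq]
  rfl

/-- the alternating sums of the `L²`-Betti numbers -/
theorem alt_sum {r : ℕ → ℕ} (D : Matrices G r) (hD : ∀ i, D (i + 1) * D i = 0) (N : ℕ) :
    ∑ i ∈ Finset.range (N + 1), (-1 : ℝ) ^ i * betti D i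
      = (-1 : ℝ) ^ N * vd (LinearMap.ker (opM (D N) : EE G (Fin (r N)) →ₗ[ℂ] EE G (Fin (r (N + 1)))))
        + ∑ i ∈ Finset.range N, (-1 : ℝ) ^ i * r i := by
  induction N with
  | zero =>
    rw [Finset.sum_range_one, Finset.sum_range_zero, betti_zero, add_zero]
  | succ N ih =>
    rw [Finset.sum_range_succ, ih, Finset.sum_range_succ _ N, betti_succ,
      vd_harm_eq _ _ (opM_eqv _) (opM_comp_zero _ _ (hD N)), Fintype.card_fin]
    ring

theorem euler {n : ℕ} {r : ℕ → ℕ} (D : Matrices G r) (hD : ∀ i, D (i + 1) * D i = 0)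
    (hlen : r (n + 1) = 0) :
    ∑ i ∈ Finset.range (n + 1), (-1 : ℝ) ^ i * r i
      = ∑ i ∈ Finset.range (n + 1), (-1 : ℝ) ^ i * betti D i := by
  rw [alt_sum D hD n, Finset.sum_range_succ, add_comm]
  congr 2
  have h0 : IsEmpty (Fin (r (n + 1))) := by
    rw [hlen]
    infer_instance
  have h1 : LinearMap.ker (opM (D n) : EE G (Fin (r n)) →ₗ[ℂ] EE G (Fin (r (n + 1)))) = ⊤ := by
    rw [eq_top_iff]
    intro F _
    change opM (D n) F = 0
    ext x
    exact h0.elim x.2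
  rw [h1, vd_top, Fintype.card_fin]

/-- the sign of the Euler characteristic -/
theorem euler_sign {n : ℕ} {r : ℕ → ℕ} (D : Matrices G r) (hD : ∀ i, D (i + 1) * D i = 0)
    (hlen : r (n + 1) = 0) (h : ∀ i, 2 * i ≠ n → betti D i = 0) (m : ℕ) (hm : n = 2 * m) :
    0 ≤ (-1) ^ m * (∑ i ∈ Finset.range (n + 1), (-1) ^ i * (r i : ℤ)) := by
  have hreal : (0 : ℝ) ≤ (-1 : ℝ) ^ m * ∑ i ∈ Finset.range (n + 1), (-1 : ℝ) ^ i * r i := by
    rw [euler D hD hlen, Finset.sum_eq_single m]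
    · rw [← mul_assoc, ← pow_add, ← two_mul, pow_mul, neg_one_sq, one_pow, one_mul]
      exact betti_nonneg D m
    · intro i _ hi
      rw [h i (by omega), mul_zero]
    · intro h
      exact absurd (Finset.mem_range.2 (by omega)) h
  have hcast : (((-1) ^ m * (∑ i ∈ Finset.range (n + 1), (-1) ^ i * (r i : ℤ)) : ℤ) : ℝ)
      = (-1 : ℝ) ^ m * ∑ i ∈ Finset.range (n + 1), (-1 : ℝ) ^ i * r i := by
    push_cast
    rfl
  rw [← hcast] at hreal
  exact_mod_cast hreal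

end

section zero
variable {G : Type u} [Group G] {P0 P1 Q0 Q1 : Type} [Fintype P0] [DecidableEq P0]
  [Fintype P1] [DecidableEq P1] [Fintype Q0] [DecidableEq Q0] [Fintype Q1] [DecidableEq Q1]

/-- transfer in degree zero -/
theorem ker_zero_transfer (A0 : Matrix P1 P0 (MonoidAlgebra ℂ G))
    (B0 : Matrix Q1 Q0 (MonoidAlgebra ℂ G))
    (φ : (P0 → MonoidAlgebra ℂ G) →ₗ[ℂ] ℂ) (ψ : (Q0 → MonoidAlgebra ℂ G) →ₗ[ℂ] ℂ)
    (hφ : φ ≠ 0) (hψ : ψ ≠ 0)
    (hP0 : ∀ x, (∃ y, y ᵥ* A0 = x) ↔ φ x = 0) (hQ0 : ∀ x, (∃ y, y ᵥ* B0 = x) ↔ ψ x = 0)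
    (χ : G →* ℂ) (hχ : ∀ (g : G) x, φ (gsm g x) = χ g * φ x)
    (hχ' : ∀ (g : G) x, ψ (gsm g x) = χ g * ψ x)
    (hB : ∀ F, opM B0 F = 0 → F = 0) (F : EE G P0) (hF : opM A0 F = 0) : F = 0 := by
  obtain ⟨f0, hf0⟩ := exists_f0 χ hχ hχ' hψ
  obtain ⟨g0, hg0⟩ := exists_f0 χ hχ' hχ hφ
  have hrow' : ∀ l, ψ (B0 l) = 0 := fun l => (hQ0 _).1 ⟨_, row_eq B0 l⟩
  obtain ⟨g1, hg1⟩ : ∃ g1 : Matrix Q1 P1 (MonoidAlgebra ℂ G), g1 * A0 = B0 * g0 := by
    apply lift_rows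
    intro i
    rw [hP0]
    change φ (B0 i ᵥ* g0) = 0
    rw [hg0, hrow']
  obtain ⟨s0, hs0⟩ : ∃ s0 : Matrix P0 P1 (MonoidAlgebra ℂ G), s0 * A0 = 1 - f0 * g0 := by
    apply lift_rows
    intro i
    rw [hP0]
    change φ ((1 : Matrix P0 P0 (MonoidAlgebra ℂ G)) i - f0 i ᵥ* g0) = 0
    rw [map_sub, hg0, one_row, ← row_eq f0 i, hf0, sub_self]
  have h1 : opM g0 F = 0 := by
    apply hB
    rw [← opM_mul, ← hg1, opM_mul, hF, map_zero]
  have h2 := opM_add (s0 * A0) (f0 * g0) F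
  rw [hs0, sub_add_cancel, opM_one, ← hs0, opM_mul, opM_mul, hF, h1, map_zero, map_zero,
    add_zero] at h2
  exact h2

end zero

end Pool.Agent.V7H25.Sing
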