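import Pool.Agent.V7H25.Sing.Cone

set_option autoImplicit false
set_option linter.unusedSectionVars false

open scoped Matrix

/-! Finite-dimensional homology of the closed cone. -/

namespace Pool.Agent.V7H25.Sing

open Pool.Agent.W649.ZL Pool.Agent.N309.LO Pool.Agent.N309.PD Module

universe u v w z y

section
variable {G : Type u} [Group G] [LinearOrder G] {J : Type v} [Fintype J] [DecidableEq J]
  {L : Type w} [Fintype L] [DecidableEq L]

/-- left translation as a linear map -/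
noncomputable def gsmL (g : G) : (J → MonoidAlgebra ℂ G) →ₗ[ℂ] (J → MonoidAlgebra ℂ G) where
  toFun := gsm g
  map_add' := gsm_add g
  map_smul' := gsm_smul g

theorem gsmL_inv (g : G) (x : J → MonoidAlgebra ℂ G) : gsm g (gsm g⁻¹ x) = x := by
  rw [← gsm_mul, mul_inv_cancel, gsm_one]

theorem gsmL_inv' (g : G) (x : J → MonoidAlgebra ℂ G) : gsm g⁻¹ (gsm g x) = x := by
  rw [← gsm_mul, inv_mul_cancel, gsm_one]

theorem gsm_mem_ch (hG : ∀ g a b : G, a ≤ b → g * a ≤ g * b) (w : J → G) (g h : G)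
    (x : J → MonoidAlgebra ℂ G) (hx : x ∈ ch w (fun k => h ≤ k)) :
    gsm g x ∈ ch w (fun k => g * h ≤ k) := by
  intro j k hk
  change (MonoidAlgebra.single g 1 * x j).coeff k ≠ 0 at hk
  rw [single_mul_coeff] at hk
  have h1 := hG g _ _ (hx j _ hk)
  have e : g * (g⁻¹ * k * w j) = k * w j := by group
  rwa [e] at h1

theorem gsm_mem_range (D : Matrix L J (MonoidAlgebra ℂ G)) (g : G) (x : J → MonoidAlgebra ℂ G)
    (hx : x ∈ LinearMap.range (bdm D)) : gsm g x ∈ LinearMap.range (bdm D) := by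
  obtain ⟨y, rfl⟩ := hx
  exact ⟨gsm g y, (gsm_vecMul g y D).symm⟩

theorem cyc_tr (hG : ∀ g a b : G, a ≤ b → g * a ≤ g * b) (w0 : J → G)
    (D : Matrix L J (MonoidAlgebra ℂ G)) (g : G) :
    (cyc w0 D (fun k => 1 ≤ k)).map (gsmL g) = cyc w0 D (fun k => g ≤ k) := by
  apply le_antisymm
  · rintro _ ⟨x, hx, rfl⟩
    refine ⟨?_, gsm_mem_range D g x hx.2⟩
    have := gsm_mem_ch hG w0 g 1 x hx.1
    rwa [mul_one] at this
  · intro x hx
    refine ⟨gsm g⁻¹ x, ⟨?_, gsm_mem_range D g⁻¹ x hx.2⟩, gsmL_inv g x⟩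
    have := gsm_mem_ch hG w0 g⁻¹ g x hx.1
    rwa [inv_mul_cancel] at this

theorem bds_tr (hG : ∀ g a b : G, a ≤ b → g * a ≤ g * b) (w1 : L → G)
    (D : Matrix L J (MonoidAlgebra ℂ G)) (g : G) (x : J → MonoidAlgebra ℂ G) :
    x ∈ bds w1 D (fun k => 1 ≤ k) ↔ gsm g x ∈ bds w1 D (fun k => g ≤ k) := by
  constructor
  · rintro ⟨y, hy, rfl⟩
    refine ⟨gsm g y, ?_, (gsm_vecMul g y D).symm⟩
    have := gsm_mem_ch hG w1 g 1 y hy
    rwa [mul_one] at this
  · rintro ⟨y, hy, he⟩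
    refine ⟨gsm g⁻¹ y, ?_, ?_⟩
    · have := gsm_mem_ch hG w1 g⁻¹ g y hy
      rwa [inv_mul_cancel] at this
    · have h1 := gsm_vecMul g⁻¹ y D
      change gsm g⁻¹ y ᵥ* D = x
      rw [← h1]
      change gsm g⁻¹ (bdm D y) = x
      rw [he, gsmL_inv']

theorem rd_tr (hG : ∀ g a b : G, a ≤ b → g * a ≤ g * b) (w0 : J → G) (w1 : L → G)
    (D : Matrix L J (MonoidAlgebra ℂ G)) (g : G) :
    rd (cyc w0 D (fun k => g ≤ k)) (bds w1 D (fun k => g ≤ k))
      = rd (cyc w0 D (fun k => 1 ≤ k)) (bds w1 D (fun k => 1 ≤ k)) ∧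
    (RF (cyc w0 D (fun k => 1 ≤ k)) (bds w1 D (fun k => 1 ≤ k)) →
      RF (cyc w0 D (fun k => g ≤ k)) (bds w1 D (fun k => g ≤ k))) := by
  have key : ∀ x ∈ cyc w0 D (fun k => 1 ≤ k),
      (bds w1 D (fun k => 1 ≤ k)).mkQ x = 0 ↔
        ((bds w1 D (fun k => g ≤ k)).mkQ ∘ₗ gsmL g) x = 0 := by
    intro x _
    rw [LinearMap.comp_apply, Submodule.mkQ_apply, Submodule.mkQ_apply,
      Submodule.Quotient.mk_eq_zero, Submodule.Quotient.mk_eq_zero]
    exact bds_tr hG w1 D g x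
  constructor
  · have h := finrank_map_of_ker _ _ _ key
    rw [Submodule.map_comp, cyc_tr hG] at h
    exact h.symm
  · intro hf
    have h := finite_map_of_ker _ _ _ key hf
    rw [Submodule.map_comp, cyc_tr hG] at h
    exact h

/-- a common lower bound of the levels of finitely many chains -/
theorem exists_lower (hnt : ∃ g : G, 1 < g) (w : J → G) {ι : Type} [Fintype ι]
    (z : ι → J → MonoidAlgebra ℂ G) (hz : ∀ i, z i ∈ ch w (fun k => 1 < k)) :
    ∃ g : G, 1 < g ∧ ∀ i, z i ∈ ch w (fun k => g ≤ k) := by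
  classical
  obtain ⟨g0, hg0⟩ := hnt
  let s : Finset G := insert g0 (Finset.univ.biUnion fun i : ι => Finset.univ.biUnion fun j : J =>
    (z i j).coeff.support.image fun k => k * w j)
  have hs : s.Nonempty := ⟨g0, Finset.mem_insert_self _ _⟩
  refine ⟨s.min' hs, ?_, ?_⟩
  · rw [Finset.lt_min'_iff]
    intro y hy
    rcases Finset.mem_insert.1 hy with rfl | hy
    · exact hg0
    · obtain ⟨i, _, hi⟩ := Finset.mem_biUnion.1 hy
      obtain ⟨j, _, hj⟩ := Finset.mem_biUnion.1 hi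
      obtain ⟨k, hk, rfl⟩ := Finset.mem_image.1 hj
      exact hz i j k (Finsupp.mem_support_iff.1 hk)
  · intro i j k hk
    apply Finset.min'_le
    apply Finset.mem_insert_of_mem
    exact Finset.mem_biUnion.2 ⟨i, Finset.mem_univ _, Finset.mem_biUnion.2 ⟨j, Finset.mem_univ _,
      Finset.mem_image.2 ⟨k, Finsupp.mem_support_iff.2 hk, rfl⟩⟩⟩

/-- the homology of the open cone is not larger than that of the closed cone -/
theorem rd_open_le (hG : ∀ g a b : G, a ≤ b → g * a ≤ g * b) (hnt : ∃ g : G, 1 < g)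
    (w0 : J → G) (w1 : L → G) (D : Matrix L J (MonoidAlgebra ℂ G))
    (hf : RF (cyc w0 D (fun k => 1 ≤ k)) (bds w1 D (fun k => 1 ≤ k)))
    (hf' : RF (cyc w0 D (fun k => 1 < k)) (bds w1 D (fun k => 1 < k))) :
    rd (cyc w0 D (fun k => 1 < k)) (bds w1 D (fun k => 1 < k))
      ≤ rd (cyc w0 D (fun k => 1 ≤ k)) (bds w1 D (fun k => 1 ≤ k)) := by
  classical
  set S' := bds w1 D (fun k => 1 < k) with hS'
  set U := (cyc w0 D (fun k => 1 < k)).map S'.mkQ with hU
  have : Module.Finite ℂ U := hf'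
  let b : Basis (Fin (finrank ℂ U)) ℂ U := Module.finBasis ℂ U
  have hb : ∀ t, ∃ z ∈ cyc w0 D (fun k => 1 < k), S'.mkQ z = (b t : _ ⧸ S') := fun t => (b t).2
  choose z hz hzt using hb
  obtain ⟨g, hg1, hg⟩ := exists_lower hnt w0 z (fun t => (hz t).1)
  obtain ⟨e1, e2⟩ := rd_tr hG w0 w1 D g
  rw [← e1]
  set Sg := bds w1 D (fun k => g ≤ k) with hSg
  have hfin : Module.Finite ℂ ((cyc w0 D (fun k => g ≤ k)).map Sg.mkQ) := e2 hf
  have hle : Sg ≤ S' := bds_mono w1 D (fun k hk => lt_of_lt_of_le hg1 hk)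
  have hmem : ∀ t, z t ∈ cyc w0 D (fun k => g ≤ k) := fun t => ⟨hg t, (hz t).2⟩
  let v : Fin (finrank ℂ U) → (cyc w0 D (fun k => g ≤ k)).map Sg.mkQ :=
    fun t => ⟨Sg.mkQ (z t), ⟨z t, hmem t, rfl⟩⟩
  have hli : LinearIndependent ℂ v := by
    have h1 : LinearIndependent ℂ (fun t => (b t : _ ⧸ S')) :=
      b.linearIndependent.map' U.subtype (Submodule.ker_subtype U)
    have h2 : (fun t => (b t : _ ⧸ S'))
        = ((Submodule.mapQ Sg S' LinearMap.id hle) ∘ₗ
          ((cyc w0 D (fun k => g ≤ k)).map Sg.mkQ).subtype) ∘ v := by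
      funext t
      rw [← hzt]
      rfl
    rw [h2] at h1
    exact LinearIndependent.of_comp _ h1
  have := hli.fintype_card_le_finrank
  rw [Fintype.card_fin] at this
  exact this

end

end Pool.Agent.V7H25.Sing
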