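import Pool.Agent.V7H25.Sing.Comp
import Pool.Agent.N309.LO.Level

set_option autoImplicit false
set_option linter.unusedSectionVars false

open scoped InnerProductSpace InnerProduct ENNReal
open scoped Matrix

/-! The level inequality for matrices over the group algebra and kernels bounded by initial forms. -/

namespace Pool.Agent.V7H25.Sing

open Pool.Agent.W649.ZL Pool.Agent.N309.LO Pool.Agent.N309.PD Module

universe u v w z y

section general
variable {G : Type u} [Group G] {X : Type y} [MulAction G X] [LinearOrder X]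
  {J : Type v} [Fintype J] [DecidableEq J] {L : Type w} [Fintype L] [DecidableEq L]

open Classical in
/-- the terms which preserve the level -/
noncomputable def levM (u : L → X) (w : J → X) (D : Matrix L J (MonoidAlgebra ℂ G)) :
    Matrix L J (MonoidAlgebra ℂ G) :=
  fun l j => MonoidAlgebra.ofCoeff ((D l j).coeff.filter (fun t => u l = t • w j))

theorem levM_coeff_pos (u : L → X) (w : J → X) (D : Matrix L J (MonoidAlgebra ℂ G)) (l : L) (j : J)
    (t : G) (h : u l = t • w j) : (levM u w D l j).coeff t = (D l j).coeff t := by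
  classical
  change ((D l j).coeff.filter (fun t => u l = t • w j)) t = _
  exact Finsupp.filter_apply_pos _ _ h

theorem levM_coeff_neg (u : L → X) (w : J → X) (D : Matrix L J (MonoidAlgebra ℂ G)) (l : L) (j : J)
    (t : G) (h : u l ≠ t • w j) : (levM u w D l j).coeff t = 0 := by
  classical
  change ((D l j).coeff.filter (fun t => u l = t • w j)) t = _
  exact Finsupp.filter_apply_neg _ _ h

/-- the level inequality -/
theorem lev_le (hX : OrdInv G X) (u : L → X) (w : J → X) (D : Matrix L J (MonoidAlgebra ℂ G))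
    (hD : ∀ l j t, (D l j).coeff t ≠ 0 → u l ≤ t • w j) :
    vd (LinearMap.ker (opM D : EE G J →ₗ[ℂ] EE G L))
      ≤ vd (LinearMap.ker (opM (levM u w D) : EE G J →ₗ[ℂ] EE G L)) := by
  apply level_le hX w u _ _ (opM_eqv _) (opM_eqv _)
  · intro j t i hne
    rw [opM_dl, inv_one, mul_one] at hne
    exact hD _ _ _ hne
  · intro j t i he
    rw [opM_dl, opM_dl, inv_one, mul_one]
    exact levM_coeff_pos u w D i j t he
  · intro j t i he
    rw [opM_dl, inv_one, mul_one]
    exact levM_coeff_neg u w D i j t he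

end general

section free
variable {G : Type u} [Group G] [LinearOrder G] {J : Type v} [Fintype J] [DecidableEq J]
  {M : Type z} [Fintype M] [DecidableEq M]

/-- the terms of level one -/
noncomputable def top (w : J → G) : (J → MonoidAlgebra ℂ G) →ₗ[ℂ] (J → ℂ) where
  toFun z := fun j => (z j).coeff (w j)⁻¹
  map_add' x y := by funext j; rfl
  map_smul' c x := by funext j; rfl

theorem top_apply (w : J → G) (z : J → MonoidAlgebra ℂ G) (j : J) :
    top w z j = (z j).coeff (w j)⁻¹ := rfl

/-- **The bound by initial forms.** -/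
theorem ker_le_top (hG : ∀ g a b : G, a ≤ b → g * a ≤ g * b) (w : J → G)
    (B : Matrix M J (MonoidAlgebra ℂ G)) (Z : Submodule ℂ (J → MonoidAlgebra ℂ G))
    (h1 : ∀ z ∈ Z, ∀ j k, (z j).coeff k ≠ 0 → 1 ≤ k * w j)
    (h2 : ∀ z ∈ Z, ∀ F, opM B F = 0 → pr z F = 0) :
    vd (LinearMap.ker (opM B : EE G J →ₗ[ℂ] EE G M))
      ≤ (Fintype.card J : ℝ) - (finrank ℂ (Z.map (top w)) : ℝ) := by
  classical
  set U := Z.map (top w) with hU
  set ζ := finrank ℂ U with hζ
  let b : Basis (Fin ζ) ℂ U := Module.finBasis ℂ U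
  have hb : ∀ t, ∃ z ∈ Z, top w z = (b t : J → ℂ) := fun t => (b t).2
  choose z hz hzt using hb
  let R : Matrix (Fin ζ) J (MonoidAlgebra ℂ G) := fun t => z t
  have hR1 : vd (LinearMap.ker (opM B : EE G J →ₗ[ℂ] EE G M))
      ≤ vd (LinearMap.ker (opM R : EE G J →ₗ[ℂ] EE G (Fin ζ))) := by
    apply vd_mono
    intro F hF
    change opM R F = 0
    rw [opM_eq_zero]
    intro t
    exact h2 _ (hz t) F hF
  have hX : OrdInv G G := fun g a b h => hG g a b h
  have hR2 := lev_le hX (fun _ : Fin ζ => (1 : G)) w R (fun t j k hk => h1 _ (hz t) j k hk)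
  set R' := levM (fun _ : Fin ζ => (1 : G)) w R with hR'
  -- the range of the operator of the initial forms is dense
  have hmem : ∀ x : G × Fin ζ, dl x ∈ (LinearMap.range (opM R' : EE G J →ₗ[ℂ] EE G (Fin ζ))) := by
    rintro ⟨x, t⟩
    obtain ⟨ℓ, hℓ⟩ := LinearMap.exists_extend (b.coord t)
    have hℓ' : ∀ t', ℓ (b t' : J → ℂ) = if t' = t then 1 else 0 := by
      intro t'
      have e1 : ℓ (b t' : J → ℂ) = b.coord t (b t') := by
        rw [← hℓ]; rfl
      rw [e1, Basis.coord_apply, Basis.repr_self, Finsupp.single_apply]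
    refine ⟨∑ j, ℓ (Pi.single j 1) • dl (w j * x, j), ?_⟩
    rw [map_sum]
    change ∑ j, opM R' (ℓ (Pi.single j 1) • dl (w j * x, j)) = dl (x, t)
    ext ⟨g, i⟩
    rw [sum_apply_EE]
    have e2 : ∀ j, (opM R' (ℓ (Pi.single j 1) • dl (w j * x, j))) (g, i)
        = if g = x then ℓ (Pi.single j 1) * (b i : J → ℂ) j else 0 := by
      intro j
      rw [map_smul]
      change ℓ (Pi.single j 1) • opM R' (dl (w j * x, j)) (g, i) = _
      rw [opM_dl, smul_eq_mul]
      by_cases hg : g = x
      · have e3 : g * (w j * x)⁻¹ = (w j)⁻¹ := by rw [hg]; group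
        rw [if_pos hg, e3, levM_coeff_pos _ _ _ _ _ _ (by rw [smul_eq_mul, inv_mul_cancel])]
        have e4 := congrFun (hzt i) j
        rw [top_apply] at e4
        rw [← e4]
      · rw [if_neg hg, levM_coeff_neg, mul_zero]
        intro e3
        apply hg
        rw [smul_eq_mul] at e3
        have e5 : g * (w j * x)⁻¹ * w j = g * x⁻¹ := by group
        rw [e5] at e3
        rw [← mul_one x, e3]
        exact (by
          have e6 : x * (g * x⁻¹) = x := by rw [← e3, mul_one]
          have e7 : g * x⁻¹ = 1 := e3.symm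
          rw [e7, mul_one]
          exact mul_inv_eq_one.1 e7)
    rw [Finset.sum_congr rfl fun j _ => e2 j]
    by_cases hg : g = x
    · simp only [if_pos hg]
      have e3 : ∑ j, ℓ (Pi.single j 1) * (b i : J → ℂ) j = ℓ (b i : J → ℂ) := by
        conv_rhs => rw [← Finset.univ_sum_single (b i : J → ℂ), map_sum]
        refine Finset.sum_congr rfl fun j _ => ?_
        have e4 : (Pi.single j ((b i : J → ℂ) j) : J → ℂ) = ((b i : J → ℂ) j) • Pi.single j 1 := by
          rw [← Pi.single_smul, smul_eq_mul, mul_one]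
        rw [e4, map_smul, smul_eq_mul, mul_comm]
      rw [e3, hℓ']
      by_cases hi : i = t
      · rw [if_pos hi, hg, hi, dl_apply_self]
      · rw [if_neg hi, dl_apply_ne]
        intro h; exact hi (congrArg Prod.snd h)
    · simp only [if_neg hg]
      rw [Finset.sum_const_zero, dl_apply_ne]
      intro h; exact hg (congrArg Prod.fst h)
  have htop : (LinearMap.range (opM R' : EE G J →ₗ[ℂ] EE G (Fin ζ))).topologicalClosure = ⊤ :=
    eq_top_of_dl _ (Submodule.isClosed_topologicalClosure _)
      (fun x => Submodule.le_topologicalClosure _ (hmem x))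
  have h3 := ker_add_range (opM R') (opM_eqv R')
  rw [← vd_closure (LinearMap.range (opM R' : EE G J →ₗ[ℂ] EE G (Fin ζ))), htop, vd_top,
    Fintype.card_fin] at h3
  linarith

end free

end Pool.Agent.V7H25.Sing
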