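import Pool.Agent.N309.PD.Dual

set_option autoImplicit false
set_option linter.unusedSectionVars false

open scoped InnerProductSpace InnerProduct ENNReal
open scoped Matrix

/-! Homotopy equivalent complexes have the same `L²`-Betti numbers. -/

namespace Pool.Agent.V7H25.Sing

open Pool.Agent.W649.ZL Pool.Agent.N309.LO Pool.Agent.N309.PD

universe u v w z

section op
variable {G : Type u} [Group G] {J : Type v} [Fintype J] [DecidableEq J] {I : Type w} [Fintype I]
  [DecidableEq I] {L : Type z} [Fintype L] [DecidableEq L]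

theorem opM_mul (A : Matrix I L (MonoidAlgebra ℂ G)) (B : Matrix L J (MonoidAlgebra ℂ G))
    (F : EE G J) : opM (A * B) F = opM A (opM B F) := by
  apply ext_cmp
  intro i
  rw [cmp_opM, cmp_opM, pr_opM]
  rfl

theorem opM_add (A B : Matrix I J (MonoidAlgebra ℂ G)) (F : EE G J) :
    opM (A + B) F = opM A F + opM B F := by
  apply ext_cmp
  intro i
  rw [map_add, cmp_opM, cmp_opM, cmp_opM, ← pr_add_left]
  rfl

theorem opM_one (F : EE G J) : opM (1 : Matrix J J (MonoidAlgebra ℂ G)) F = F := by
  apply ext_cmp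
  intro i
  rw [cmp_opM]
  have e : (1 : Matrix J J (MonoidAlgebra ℂ G)) i = Pi.single i 1 := by
    funext j
    by_cases h : j = i
    · subst h
      rw [Pi.single_eq_same, Matrix.one_apply_eq]
    · rw [Pi.single_eq_of_ne h, Matrix.one_apply_ne (Ne.symm h)]
  rw [e, pr_single, map_one]
  rfl

theorem opM_zero_right (A : Matrix I J (MonoidAlgebra ℂ G)) (F : EE G J) (h : F = 0) :
    opM A F = 0 := by rw [h, map_zero]

theorem opM_comp_zero (A : Matrix I L (MonoidAlgebra ℂ G)) (B : Matrix L J (MonoidAlgebra ℂ G))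
    (hAB : A * B = 0) (F : EE G J) : opM A (opM B F) = 0 := by
  rw [← opM_mul, hAB, opM_eq_zero]
  intro i
  exact pr_zero_left F

end op

section hilb
variable {G : Type u} [Group G] {J : Type v} [Fintype J] [DecidableEq J] {I : Type w} [Fintype I]
  [DecidableEq I] {L : Type z} [Fintype L] [DecidableEq L]

/-- a cocycle orthogonal to the harmonic cochains is a limit of coboundaries -/
theorem mem_closure_of (A1 : EE G J →L[ℂ] EE G I) (A2 : EE G L →L[ℂ] EE G J)
    (h : ∀ F, A1 (A2 F) = 0) (H : EE G J) (h1 : A1 H = 0) (h2 : ∀ K ∈ harm A1 A2, ⟪K, H⟫_ℂ = 0) :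
    H ∈ (LinearMap.range (A2 : EE G L →ₗ[ℂ] EE G J)).topologicalClosure := by
  set R := (LinearMap.range (A2 : EE G L →ₗ[ℂ] EE G J)).topologicalClosure with hR
  have hRc : IsClosed (R : Set (EE G J)) := Submodule.isClosed_topologicalClosure _
  have hcs : CompleteSpace R := hRc.completeSpace_coe
  have hle : R ≤ LinearMap.ker (A1 : EE G J →ₗ[ℂ] EE G I) := by
    apply Submodule.topologicalClosure_minimal _ _ (ContinuousLinearMap.isClosed_ker A1)
    rintro _ ⟨F, rfl⟩
    exact h F
  have hm : R.starProjection H ∈ R := Submodule.starProjection_apply_mem _ _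
  have ho : H - R.starProjection H ∈ Rᗮ := Submodule.sub_starProjection_mem_orthogonal _
  have hh : H - R.starProjection H ∈ harm A1 A2 := by
    refine ⟨?_, ?_⟩
    · change A1 (H - R.starProjection H) = 0
      rw [map_sub, h1, zero_sub, neg_eq_zero]
      exact hle hm
    · change H - R.starProjection H ∈ (LinearMap.range (A2 : EE G L →ₗ[ℂ] EE G J))ᗮ
      rw [← Submodule.orthogonal_closure]
      exact ho
  have e1 := h2 _ hh
  have e2 : ⟪H - R.starProjection H, R.starProjection H⟫_ℂ = 0 :=
    Submodule.inner_left_of_mem_orthogonal hm ho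
  have e3 : ⟪H - R.starProjection H, H - R.starProjection H⟫_ℂ = 0 := by
    rw [inner_sub_right, e1, e2, sub_zero]
  have e4 : H - R.starProjection H = 0 := inner_self_eq_zero.1 e3
  rw [sub_eq_zero] at e4
  rw [e4]
  exact hm

end hilb

section transfer
variable {G : Type u} [Group G] {P0 P1 P2 Q0 Q1 Q2 : Type} [Fintype P0] [DecidableEq P0]
  [Fintype P1] [DecidableEq P1] [Fintype P2] [DecidableEq P2] [Fintype Q0] [DecidableEq Q0]
  [Fintype Q1] [DecidableEq Q1] [Fintype Q2] [DecidableEq Q2]

/-- the homotopy data in one degree bound the dimension of the harmonic cochains -/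
theorem harm_transfer (A : Matrix P1 P0 (MonoidAlgebra ℂ G)) (B : Matrix P2 P1 (MonoidAlgebra ℂ G))
    (A' : Matrix Q1 Q0 (MonoidAlgebra ℂ G)) (B' : Matrix Q2 Q1 (MonoidAlgebra ℂ G))
    (hBA' : B' * A' = 0)
    (f0 : Matrix P0 Q0 (MonoidAlgebra ℂ G)) (f1 : Matrix P1 Q1 (MonoidAlgebra ℂ G))
    (g1 : Matrix Q1 P1 (MonoidAlgebra ℂ G)) (g2 : Matrix Q2 P2 (MonoidAlgebra ℂ G))
    (s0 : Matrix P0 P1 (MonoidAlgebra ℂ G)) (s1 : Matrix P1 P2 (MonoidAlgebra ℂ G))
    (hf : A * f0 = f1 * A') (hg : B' * g1 = g2 * B)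
    (hs : f1 * g1 + (s1 * B + A * s0) = 1) :
    vd (harm (opM B) (opM A)) ≤ vd (harm (opM B') (opM A')) := by
  classical
  set K := harm (opM B) (opM A) with hK
  set K' := harm (opM B') (opM A') with hK'
  have hKc' : IsClosed (K' : Set (EE G Q1)) := harm_closed _ _
  have hcs : CompleteSpace K' := hKc'.completeSpace_coe
  set T : EE G P1 →L[ℂ] EE G Q1 := K'.starProjection.comp (opM g1) with hT
  have hTe : Eqv T := by
    intro k F
    rw [hT, ContinuousLinearMap.comp_apply, ContinuousLinearMap.comp_apply, opM_eqv,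
      proj_tr (harm_inv _ _ (opM_eqv _) (opM_eqv _))]
  have h1 := rank_nullity T hTe (U := K) (harm_inv _ _ (opM_eqv _) (opM_eqv _)) (harm_closed _ _)
  have h2 : K ⊓ LinearMap.ker (T : EE G P1 →ₗ[ℂ] EE G Q1) = ⊥ := by
    rw [eq_bot_iff]
    rintro F ⟨hF1, hF2⟩
    rw [Submodule.mem_bot]
    have hBF : opM B F = 0 := hF1.1
    have hT0 : K'.starProjection (opM g1 F) = 0 := hF2
    have hor : opM g1 F ∈ K'ᗮ := (Submodule.starProjection_apply_eq_zero_iff K').1 hT0
    have hcl := mem_closure_of (opM B') (opM A') (opM_comp_zero B' A' hBA') (opM g1 F)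
      (by rw [← opM_mul, hg, opM_mul, hBF, map_zero])
      (fun X hX => Submodule.inner_right_of_mem_orthogonal hX hor)
    -- push forward
    have hpush : opM f1 (opM g1 F)
        ∈ (LinearMap.range (opM A : EE G P0 →ₗ[ℂ] EE G P1)).topologicalClosure := by
      have hle : (LinearMap.range (opM A' : EE G Q0 →ₗ[ℂ] EE G Q1)).topologicalClosure
          ≤ (LinearMap.range (opM A : EE G P0 →ₗ[ℂ] EE G P1)).topologicalClosure.comap
            (opM f1 : EE G Q1 →ₗ[ℂ] EE G P1) := by
        apply Submodule.topologicalClosure_minimal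
        · rintro _ ⟨X, rfl⟩
          change opM f1 (opM A' X) ∈
            (LinearMap.range (opM A : EE G P0 →ₗ[ℂ] EE G P1)).topologicalClosure
          rw [← opM_mul, ← hf, opM_mul]
          exact Submodule.le_topologicalClosure _ ⟨_, rfl⟩
        · exact (Submodule.isClosed_topologicalClosure _).preimage (opM f1).continuous
      exact hle hcl
    have hF : F = opM f1 (opM g1 F) + opM A (opM s0 F) := by
      have e := opM_one F
      rw [← hs, opM_add, opM_add, opM_mul, opM_mul, opM_mul, hBF, map_zero, zero_add] at e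
      exact e.symm
    have hFc : F ∈ (LinearMap.range (opM A : EE G P0 →ₗ[ℂ] EE G P1)).topologicalClosure := by
      rw [hF]
      exact Submodule.add_mem _ hpush (Submodule.le_topologicalClosure _ ⟨_, rfl⟩)
    have hFo : F ∈ (LinearMap.range (opM A : EE G P0 →ₗ[ℂ] EE G P1)).topologicalClosureᗮ := by
      rw [Submodule.orthogonal_closure]
      exact hF1.2
    exact inner_self_eq_zero.1 (Submodule.inner_right_of_mem_orthogonal hFc hFo)
  rw [h2, vd_bot, zero_add] at h1
  rw [h1]
  apply vd_mono
  rintro _ ⟨F, _, rfl⟩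
  exact Submodule.starProjection_apply_mem _ _

end transfer

end Pool.Agent.V7H25.Sing
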