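import Pool.Agent.V7H25.Sing.Tw

set_option autoImplicit false
set_option linter.unusedSectionVars false

open scoped Matrix

/-! Resolutions in both directions: a resolution and the dual of a duality complex. -/

namespace Pool.Agent.V7H25.Sing

open Pool.Agent.W649.ZL Pool.Agent.N309.LO Pool.Agent.N309.PD Module

universe u v w z y

section base
variable {G : Type u} [Group G] {P0 P1 P2 Q0 Q1 : Type} [Fintype P0] [DecidableEq P0]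
  [Fintype P1] [DecidableEq P1] [Fintype P2] [DecidableEq P2] [Fintype Q0] [DecidableEq Q0]
  [Fintype Q1] [DecidableEq Q1]

/-- the beginning of the comparison theorem -/
theorem comp_base (A0 : Matrix P1 P0 (MonoidAlgebra ℂ G)) (A1 : Matrix P2 P1 (MonoidAlgebra ℂ G))
    (B0 : Matrix Q1 Q0 (MonoidAlgebra ℂ G))
    (φ : (P0 → MonoidAlgebra ℂ G) →ₗ[ℂ] ℂ) (ψ : (Q0 → MonoidAlgebra ℂ G) →ₗ[ℂ] ℂ)
    (hφ : φ ≠ 0) (hψ : ψ ≠ 0)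
    (hP0 : ∀ x, (∃ y, y ᵥ* A0 = x) ↔ φ x = 0) (hQ0 : ∀ x, (∃ y, y ᵥ* B0 = x) ↔ ψ x = 0)
    (χ : G →* ℂ) (hχ : ∀ (g : G) x, φ (gsm g x) = χ g * φ x)
    (hχ' : ∀ (g : G) x, ψ (gsm g x) = χ g * ψ x)
    (hPe : ∀ x, x ᵥ* A0 = 0 → ∃ y, y ᵥ* A1 = x) :
    ∃ (f0 : Matrix P0 Q0 (MonoidAlgebra ℂ G)) (f1 : Matrix P1 Q1 (MonoidAlgebra ℂ G))
      (g0 : Matrix Q0 P0 (MonoidAlgebra ℂ G)) (g1 : Matrix Q1 P1 (MonoidAlgebra ℂ G))
      (s0 : Matrix P0 P1 (MonoidAlgebra ℂ G)) (s1 : Matrix P1 P2 (MonoidAlgebra ℂ G)),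
      A0 * f0 = f1 * B0 ∧ B0 * g0 = g1 * A0 ∧ f1 * g1 + (s1 * A1 + A0 * s0) = 1 := by
  obtain ⟨f0, hf0⟩ := exists_f0 χ hχ hχ' hψ
  obtain ⟨g0, hg0⟩ := exists_f0 χ hχ' hχ hφ
  have hrow : ∀ l, φ (A0 l) = 0 := fun l => (hP0 _).1 ⟨_, row_eq A0 l⟩
  have hrow' : ∀ l, ψ (B0 l) = 0 := fun l => (hQ0 _).1 ⟨_, row_eq B0 l⟩
  obtain ⟨f1, hf1⟩ : ∃ f1 : Matrix P1 Q1 (MonoidAlgebra ℂ G), f1 * B0 = A0 * f0 := by
    apply lift_rows
    intro i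
    rw [hQ0]
    change ψ (A0 i ᵥ* f0) = 0
    rw [hf0, hrow]
  obtain ⟨g1, hg1⟩ : ∃ g1 : Matrix Q1 P1 (MonoidAlgebra ℂ G), g1 * A0 = B0 * g0 := by
    apply lift_rows
    intro i
    rw [hP0]
    change φ (B0 i ᵥ* g0) = 0
    rw [hg0, hrow']
  obtain ⟨s0, hs0⟩ : ∃ s0 : Matrix P0 P1 (MonoidAlgebra ℂ G), s0 * A0 = 1 - f0 * g0 := by
    apply lift_rows
    intro i
    rw [hP0]
    change φ ((1 : Matrix P0 P0 (MonoidAlgebra ℂ G)) i - f0 i ᵥ* g0) = 0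
    rw [map_sub, hg0, one_row, ← row_eq f0 i, hf0, sub_self]
  obtain ⟨s1, hs1⟩ : ∃ s1 : Matrix P1 P2 (MonoidAlgebra ℂ G),
      s1 * A1 = 1 - f1 * g1 - A0 * s0 := by
    apply lift_rows
    intro i
    apply hPe
    have h : (1 - f1 * g1 - A0 * s0) * A0 = 0 := by
      have e1 : (f1 * g1) * A0 = A0 * (f0 * g0) := by
        rw [Matrix.mul_assoc, hg1, ← Matrix.mul_assoc, hf1, Matrix.mul_assoc]
      rw [Matrix.sub_mul, Matrix.sub_mul, e1, Matrix.mul_assoc, hs0, Matrix.mul_sub,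
        Matrix.one_mul, Matrix.mul_one]
      abel
    exact rows_zero _ _ h i
  refine ⟨f0, f1, g0, g1, s0, s1, hf1.symm, hg1.symm, ?_⟩
  rw [hs1]
  abel

end base

section dual
variable {G : Type u} [Group G]

/-- the comparison theorem for the reversed complex `A` of a complex of length `n`: the degree `k` of
the reversed complex is the degree `n - k` of the original one -/
theorem dual_comparison {r q : ℕ → ℕ} (n : ℕ)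
    (A : ∀ i, Matrix (Fin (r i)) (Fin (r (i + 1))) (MonoidAlgebra ℂ G))
    (Q : ∀ i, Matrix (Fin (q (i + 1))) (Fin (q i)) (MonoidAlgebra ℂ G))
    (hAc : ∀ i, A i * A (i + 1) = 0) (hQc : ∀ i, Q (i + 1) * Q i = 0)
    (hAe : ∀ i, i + 2 ≤ n → ∀ x, x ᵥ* A (i + 1) = 0 → ∃ y, y ᵥ* A i = x)
    (χ : G →* ℂ) (ψ : (Fin (q 0) → MonoidAlgebra ℂ G) →ₗ[ℂ] ℂ) (hψ : ψ ≠ 0)
    (hQ0 : ∀ x, (∃ y, y ᵥ* Q 0 = x) ↔ ψ x = 0)
    (hχ' : ∀ (g : G) x, ψ (gsm g x) = χ g * ψ x)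
    (hφ : ∀ j, j + 2 = n → ∃ φ : (Fin (r (j + 2)) → MonoidAlgebra ℂ G) →ₗ[ℂ] ℂ, φ ≠ 0 ∧
      (∀ x, (∃ y, y ᵥ* A (j + 1) = x) ↔ φ x = 0) ∧ ∀ (g : G) x, φ (gsm g x) = χ g * φ x)
    (k : ℕ) (hQe : ∀ i, i < k → ∀ x, x ᵥ* Q i = 0 → ∃ y, y ᵥ* Q (i + 1) = x)
    (j : ℕ) (hj : j + k + 2 = n) :
    ∃ (f0 : Matrix (Fin (r (j + 2))) (Fin (q k)) (MonoidAlgebra ℂ G))
      (f1 : Matrix (Fin (r (j + 1))) (Fin (q (k + 1))) (MonoidAlgebra ℂ G))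
      (g0 : Matrix (Fin (q k)) (Fin (r (j + 2))) (MonoidAlgebra ℂ G))
      (g1 : Matrix (Fin (q (k + 1))) (Fin (r (j + 1))) (MonoidAlgebra ℂ G))
      (s0 : Matrix (Fin (r (j + 2))) (Fin (r (j + 1))) (MonoidAlgebra ℂ G))
      (s1 : Matrix (Fin (r (j + 1))) (Fin (r j)) (MonoidAlgebra ℂ G)),
      A (j + 1) * f0 = f1 * Q k ∧ Q k * g0 = g1 * A (j + 1) ∧
        f1 * g1 + (s1 * A j + A (j + 1) * s0) = 1 := by
  induction k generalizing j with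
  | zero =>
    obtain ⟨φ, hφ0, hφ1, hφ2⟩ := hφ j (by omega)
    exact comp_base (A (j + 1)) (A j) (Q 0) φ ψ hφ0 hψ hφ1 hQ0 χ hφ2 hχ' (hAe j (by omega))
  | succ k ih =>
    obtain ⟨f0, f1, g0, g1, s0, s1, hf, hg, hs⟩ := ih (fun i hi => hQe i (by omega)) (j + 1)
      (by omega)
    obtain ⟨f2, g2, s2, h1, h2, h3⟩ := comp_step (A (j + 2)) (A (j + 1)) (A j) (Q k) (Q (k + 1))
      (hAc (j + 1)) (hQc k) (hAe (j + 1) (by omega)) (hAe j (by omega)) (hQe k (by omega))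
      f0 f1 g0 g1 s0 s1 hf hg hs
    exact ⟨f1, f2, g1, g2, s1, s2, h1, h2, h3⟩

theorem dual_harm_le {r q : ℕ → ℕ} (n : ℕ)
    (A : ∀ i, Matrix (Fin (r i)) (Fin (r (i + 1))) (MonoidAlgebra ℂ G))
    (Q : ∀ i, Matrix (Fin (q (i + 1))) (Fin (q i)) (MonoidAlgebra ℂ G))
    (hAc : ∀ i, A i * A (i + 1) = 0) (hQc : ∀ i, Q (i + 1) * Q i = 0)
    (hAe : ∀ i, i + 2 ≤ n → ∀ x, x ᵥ* A (i + 1) = 0 → ∃ y, y ᵥ* A i = x)
    (χ : G →* ℂ) (ψ : (Fin (q 0) → MonoidAlgebra ℂ G) →ₗ[ℂ] ℂ) (hψ : ψ ≠ 0)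
    (hQ0 : ∀ x, (∃ y, y ᵥ* Q 0 = x) ↔ ψ x = 0)
    (hχ' : ∀ (g : G) x, ψ (gsm g x) = χ g * ψ x)
    (hφ : ∀ j, j + 2 = n → ∃ φ : (Fin (r (j + 2)) → MonoidAlgebra ℂ G) →ₗ[ℂ] ℂ, φ ≠ 0 ∧
      (∀ x, (∃ y, y ᵥ* A (j + 1) = x) ↔ φ x = 0) ∧ ∀ (g : G) x, φ (gsm g x) = χ g * φ x)
    (k : ℕ) (hQe : ∀ i, i < k → ∀ x, x ᵥ* Q i = 0 → ∃ y, y ᵥ* Q (i + 1) = x)
    (j : ℕ) (hj : j + k + 2 = n) :
    vd (harm (opM (A j)) (opM (A (j + 1)))) ≤ vd (harm (opM (Q (k + 1))) (opM (Q k))) := by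
  obtain ⟨f0, f1, g0, g1, s0, s1, hf, hg, hs⟩ := dual_comparison n A Q hAc hQc hAe χ ψ hψ hQ0 hχ'
    hφ k hQe j hj
  obtain ⟨g2, hg2⟩ : ∃ g2 : Matrix (Fin (q (k + 2))) (Fin (r j)) (MonoidAlgebra ℂ G),
      g2 * A j = Q (k + 1) * g1 := by
    apply lift_rows
    intro i
    apply hAe j (by omega)
    have h : (Q (k + 1) * g1) * A (j + 1) = 0 := by
      rw [Matrix.mul_assoc, ← hg, ← Matrix.mul_assoc, hQc, Matrix.zero_mul]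
    exact rows_zero _ _ h i
  exact harm_transfer (A (j + 1)) (A j) (Q k) (Q (k + 1)) (hQc k) f0 f1 g1 g2 s0 s1 hf hg2.symm hs

end dual

section twres
variable {G : Type u} [Group G] {J : Type v} [Fintype J] [DecidableEq J]
  {L : Type w} [Fintype L] [DecidableEq L]

/-- the functional of the twisted resolution -/
theorem tw_aug (χ : G →* ℂ) (D : Matrix L J (MonoidAlgebra ℂ G))
    (φ : (J → MonoidAlgebra ℂ G) →ₗ[ℂ] ℂ) (hφ : φ ≠ 0)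
    (hD : ∀ x, (∃ y, y ᵥ* D = x) ↔ φ x = 0) (hinv : ∀ (g : G) x, φ (gsm g x) = φ x) :
    (φ ∘ₗ twV χ ≠ 0) ∧ (∀ x, (∃ y, y ᵥ* twM (invC χ) D = x) ↔ (φ ∘ₗ twV χ) x = 0) ∧
      ∀ (g : G) x, (φ ∘ₗ twV χ) (gsm g x) = χ g * (φ ∘ₗ twV χ) x := by
  refine ⟨?_, ?_, ?_⟩
  · intro h
    apply hφ
    apply LinearMap.ext
    intro x
    have h1 : (φ ∘ₗ twV χ) (twV (invC χ) x) = 0 := by rw [h]; rfl
    rw [LinearMap.comp_apply, twV_inv] at h1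
    exact h1
  · intro x
    rw [LinearMap.comp_apply, ← hD]
    constructor
    · rintro ⟨y, rfl⟩
      refine ⟨twV χ y, ?_⟩
      have h := twV_vecMul (invC χ) (twV χ y) D
      rw [inv_twV] at h
      rw [← h, twV_inv]
    · rintro ⟨y, hy⟩
      refine ⟨twV (invC χ) y, ?_⟩
      rw [← twV_vecMul, hy, inv_twV]
  · intro g x
    rw [LinearMap.comp_apply, LinearMap.comp_apply]
    have e : twV χ (gsm g x) = χ g • gsm g (twV χ x) := by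
      funext j
      change tw χ (MonoidAlgebra.single g 1 * x j) = χ g • (MonoidAlgebra.single g 1 * tw χ (x j))
      rw [map_mul, tw_single, ← smul_mul_assoc, MonoidAlgebra.smul_single, smul_eq_mul, mul_one]
    rw [e, map_smul, hinv, smul_eq_mul]

theorem augF_inv (a : J → ℂ) (g : G) (x : J → MonoidAlgebra ℂ G) :
    augF a (gsm g x) = augF a x := by
  rw [augF_apply, augF_apply]
  refine Finset.sum_congr rfl fun j _ => ?_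
  have e : augm (gsm g x j) = augm (x j) := by
    change augm (MonoidAlgebra.single g 1 * x j) = augm (x j)
    rw [map_mul]
    have e2 : augm (MonoidAlgebra.single g 1 : MonoidAlgebra ℂ G) = 1 := by
      unfold augm
      rw [MonoidAlgebra.lift_single]
      change (1 : ℂ) • (1 : ℂ) = 1
      rw [smul_eq_mul, mul_one]
    rw [e2, one_mul]
  rw [e]

end twres

end Pool.Agent.V7H25.Sing
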