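import Pool.Agent.V7H25.Sing.Fd

set_option autoImplicit false
set_option linter.unusedSectionVars false

open scoped Matrix

/-! Twisting by characters, and the bound of the `L²`-Betti numbers by the index. -/

namespace Pool.Agent.V7H25.Sing

open Pool.Agent.W649.ZL Pool.Agent.N309.LO Pool.Agent.N309.PD Module

universe u v w z y

section tw
variable {G : Type u} [Group G] {J : Type v} [Fintype J] [DecidableEq J]
  {L : Type w} [Fintype L] [DecidableEq L] {M : Type z} [Fintype M] [DecidableEq M]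

/-- the twisted inclusion of the group -/
noncomputable def twHom (χ : G →* ℂ) : G →* MonoidAlgebra ℂ G where
  toFun g := MonoidAlgebra.single g (χ g)
  map_one' := by rw [map_one]; rfl
  map_mul' a b := by rw [MonoidAlgebra.single_mul_single, map_mul]

/-- the twist of the group algebra -/
noncomputable def tw (χ : G →* ℂ) : MonoidAlgebra ℂ G →ₐ[ℂ] MonoidAlgebra ℂ G :=
  MonoidAlgebra.lift ℂ _ G (twHom χ)

theorem tw_single (χ : G →* ℂ) (g : G) (c : ℂ) :
    tw χ (MonoidAlgebra.single g c) = MonoidAlgebra.single g (χ g * c) := by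
  unfold tw
  rw [MonoidAlgebra.lift_single]
  change c • MonoidAlgebra.single g (χ g) = _
  rw [MonoidAlgebra.smul_single, smul_eq_mul, mul_comm]

theorem tw_coeff (χ : G →* ℂ) (α : MonoidAlgebra ℂ G) (g : G) :
    (tw χ α).coeff g = χ g * α.coeff g := by
  classical
  induction α using MonoidAlgebra.induction_linear with
  | zero =>
    rw [map_zero, MonoidAlgebra.coeff_zero, Finsupp.zero_apply, mul_zero]
  | add a b ha hb =>
    rw [map_add, MonoidAlgebra.coeff_add, Finsupp.add_apply, ha, hb, MonoidAlgebra.coeff_add,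
      Finsupp.add_apply, mul_add]
  | single h c =>
    rw [tw_single, MonoidAlgebra.coeff_single, MonoidAlgebra.coeff_single, Finsupp.single_apply,
      Finsupp.single_apply]
    by_cases e : h = g
    · rw [if_pos e, if_pos e, e]
    · rw [if_neg e, if_neg e, mul_zero]

/-- the inverse character -/
noncomputable def invC (χ : G →* ℂ) : G →* ℂ where
  toFun g := χ g⁻¹
  map_one' := by rw [inv_one, map_one]
  map_mul' a b := by rw [mul_inv_rev, map_mul, mul_comm]

theorem tw_tw (χ χ' : G →* ℂ) (h : ∀ g, χ g * χ' g = 1) (α : MonoidAlgebra ℂ G) :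
    tw χ (tw χ' α) = α := by
  apply MonoidAlgebra.coeff_injective
  ext g
  rw [tw_coeff, tw_coeff, ← mul_assoc, h, one_mul]

theorem tw_inv (χ : G →* ℂ) (α : MonoidAlgebra ℂ G) : tw χ (tw (invC χ) α) = α := by
  apply tw_tw
  intro g
  rw [mul_comm]
  exact chi_inv χ g

theorem inv_tw (χ : G →* ℂ) (α : MonoidAlgebra ℂ G) : tw (invC χ) (tw χ α) = α := by
  apply tw_tw
  intro g
  exact chi_inv χ g

/-- the twist of a vector -/
noncomputable def twV (χ : G →* ℂ) : (J → MonoidAlgebra ℂ G) →ₗ[ℂ] (J → MonoidAlgebra ℂ G) :=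
  (tw χ).toLinearMap.compLeft J

theorem twV_apply (χ : G →* ℂ) (x : J → MonoidAlgebra ℂ G) (j : J) : twV χ x j = tw χ (x j) := rfl

theorem twV_inv (χ : G →* ℂ) (x : J → MonoidAlgebra ℂ G) : twV χ (twV (invC χ) x) = x := by
  funext j; exact tw_inv χ _

theorem inv_twV (χ : G →* ℂ) (x : J → MonoidAlgebra ℂ G) : twV (invC χ) (twV χ x) = x := by
  funext j; exact inv_tw χ _

/-- the twist of a matrix -/
noncomputable def twM (χ : G →* ℂ) (D : Matrix L J (MonoidAlgebra ℂ G)) :
    Matrix L J (MonoidAlgebra ℂ G) := fun l j => tw χ (D l j)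

theorem twV_vecMul (χ : G →* ℂ) (x : L → MonoidAlgebra ℂ G) (D : Matrix L J (MonoidAlgebra ℂ G)) :
    twV χ (x ᵥ* D) = twV χ x ᵥ* twM χ D := by
  funext j
  change tw χ (∑ l, x l * D l j) = ∑ l, tw χ (x l) * tw χ (D l j)
  rw [map_sum]
  exact Finset.sum_congr rfl fun l _ => map_mul _ _ _

theorem twM_mul (χ : G →* ℂ) (A : Matrix M L (MonoidAlgebra ℂ G))
    (D : Matrix L J (MonoidAlgebra ℂ G)) : twM χ (A * D) = twM χ A * twM χ D := by
  funext m
  exact twV_vecMul χ (A m) D

theorem twM_exact (χ : G →* ℂ) (A : Matrix M L (MonoidAlgebra ℂ G))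
    (D : Matrix L J (MonoidAlgebra ℂ G)) (h : ∀ x, x ᵥ* D = 0 → ∃ y, y ᵥ* A = x)
    (x : L → MonoidAlgebra ℂ G) (hx : x ᵥ* twM (invC χ) D = 0) :
    ∃ y, y ᵥ* twM (invC χ) A = x := by
  have h1 : twV χ x ᵥ* D = 0 := by
    have h2 := twV_vecMul (invC χ) (twV χ x) D
    rw [inv_twV, hx] at h2
    have h3 := congrArg (twV χ) h2
    rw [twV_inv, map_zero] at h3
    exact h3
  obtain ⟨y, hy⟩ := h _ h1
  refine ⟨twV (invC χ) y, ?_⟩
  rw [← twV_vecMul, hy, inv_twV]

end tw

section bound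
variable {G : Type u} [Group G] [LinearOrder G] {J : Type v} [Fintype J] [DecidableEq J]
  {L : Type w} [Fintype L] [DecidableEq L] {M : Type z} [Fintype M] [DecidableEq M]

/-- the bound of the kernel for a twisted matrix -/
theorem ker_tw_le (hG : ∀ g a b : G, a ≤ b → g * a ≤ g * b) (χ : G →* ℂ) (w0 : J → G)
    (D : Matrix L J (MonoidAlgebra ℂ G)) :
    vd (LinearMap.ker (opM (twM (invC χ) D) : EE G J →ₗ[ℂ] EE G L))
      ≤ (Fintype.card J : ℝ) - (finrank ℂ ((cyc w0 D (fun g => 1 ≤ g)).map (top w0)) : ℝ) := by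
  have h := ker_le_top hG w0 (twM (invC χ) D) ((cyc w0 D (fun g => 1 ≤ g)).map (twV (invC χ)))
    (by
      rintro _ ⟨x, hx, rfl⟩ j k hk
      apply hx.1 j k
      intro h0
      apply hk
      rw [twV_apply, tw_coeff, h0, mul_zero])
    (by
      rintro _ ⟨x, ⟨_, ⟨y, hy⟩⟩, rfl⟩ F hF
      rw [← hy, bdm_apply, twV_vecMul, ← pr_opM, hF, pr_zero_right])
  have e : finrank ℂ (((cyc w0 D (fun g => 1 ≤ g)).map (twV (invC χ))).map (top w0))
      = finrank ℂ ((cyc w0 D (fun g => 1 ≤ g)).map (top w0)) := by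
    rw [← Submodule.map_comp]
    apply finrank_map_of_ker
    intro x _
    constructor
    · intro h0
      funext j
      have h1 := congrFun h0 j
      change (tw (invC χ) (x j)).coeff (w0 j)⁻¹ = 0 at h1
      rw [tw_coeff] at h1
      exact (mul_eq_zero.1 h1).resolve_left (chi_ne _ _)
    · intro h0
      funext j
      have h1 : (x j).coeff (w0 j)⁻¹ = 0 := congrFun h0 j
      change (tw (invC χ) (x j)).coeff (w0 j)⁻¹ = 0
      rw [tw_coeff, h1, mul_zero]
  rwa [e] at h

/-- **The bound of the dimension of the harmonic cochains.** -/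
theorem harm_tw_le (hG : ∀ g a b : G, a ≤ b → g * a ≤ g * b) (χ : G →* ℂ) (w0 : J → G)
    (w1 : L → G) (D : Matrix L J (MonoidAlgebra ℂ G)) (D' : Matrix M L (MonoidAlgebra ℂ G))
    (hDD : D' * D = 0) (hex : ∀ x, x ᵥ* D = 0 → ∃ y, y ᵥ* D' = x) :
    vd (harm (opM (twM (invC χ) D')) (opM (twM (invC χ) D)))
      + (rd (cyc w0 D (fun g => 1 ≤ g)) (cyc w0 D (fun g => 1 < g)) : ℝ)
      ≤ (rd (bds w1 D (fun g => 1 ≤ g)) (bds w1 D (fun g => 1 < g)) : ℝ) := by
  have h0 : twM (invC χ) D' * twM (invC χ) D = 0 := by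
    rw [← twM_mul, hDD]
    funext m j
    exact map_zero _
  rw [vd_harm_eq _ _ (opM_eqv _) (opM_comp_zero _ _ h0)]
  have h1 := ker_tw_le hG χ w0 D
  have h2 := ker_tw_le hG χ w1 D'
  have h3 := rd_bds (w1 := w1) hDD hex
  have h4 := rd_cyc w0 D
  have h3' : ((rd (bds w1 D (fun g => 1 ≤ g)) (bds w1 D (fun g => 1 < g)) : ℕ) : ℝ)
      + (finrank ℂ ((cyc w1 D' (fun g => 1 ≤ g)).map (top w1)) : ℝ) = (Fintype.card L : ℝ) := by
    exact_mod_cast h3
  rw [h4]
  linarith

end bound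

end Pool.Agent.V7H25.Sing
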